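import Mathlib
import Pool.Agent.K9h5.Prm

/-!
# Groups with a height and reductions
-/

set_option autoImplicit false
set_option linter.all false

namespace Pool.Agent.K9h5.N

open Pool.Agent.H901R3.MS WeierstrassCurve Finset Pool.Agent.K9h5

/-- independent elements with bounded heights -/
def HBg {Gp : Type} [AddCommGroup Gp] (hP : Gp → ℝ) {ρ : ℕ} (e : Fin ρ → Gp) (c : ℝ) : Prop :=
  1 ≤ c ∧ (∀ n : Fin ρ → ℤ, ∑ k, n k • e k = 0 → n = 0) ∧
    ∀ (n : Fin ρ → ℤ) (E : ℝ), 1 ≤ E → (∀ k, |(n k : ℝ)| ≤ E) → hP (∑ k, n k • e k) ≤ c * E ^ 2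

/-- few primes kill a nonzero element -/
def Kill {a b : ℤ} {Gp : Type} [AddCommGroup Gp] (hP : Gp → ℝ) (Adm : ℕ → Prop)
    (rr : ∀ (p : ℕ) [Fact p.Prime], Gp →+ Pt (a : ZMod p) (b : ZMod p)) : Prop :=
  ∀ P : Gp, P ≠ 0 → ∀ S : Finset ℕ, (∀ p ∈ S, ∃ hp : Fact p.Prime, Adm p ∧
    Disc (a : ZMod p) (b : ZMod p) ∧ @rr p hp P = 0) → (S.card : ℝ) * Real.log 2 ≤ hP P

/-- **Coordinates and heights.** -/
theorem coordsG {Gp : Type} [AddCommGroup Gp] (hFG : AddGroup.FG Gp) (hP : Gp → ℝ)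
    (hP_nonneg : ∀ P, 0 ≤ hP P) (northcott : ∀ B : ℝ, {P : Gp | hP P ≤ B}.Finite)
    {m : ℕ} (ψ : Gp →+ EuclideanSpace ℝ (Fin m)) {C : ℝ} (hψ : ∀ P, |‖ψ P‖ ^ 2 - hP P| ≤ C) (ρ : ℕ)
    (hρ : ρ = Module.finrank ℤ Gp) :
    ∃ (e : Fin ρ → Gp)
      (R : Finset (Gp)) (c : ℝ), 1 ≤ c ∧
      (∀ x, ∃ ω ∈ R, ∃ n : Fin ρ → ℤ,
        x = ω + ∑ j, n j • e j ∧ ∀ j, |(n j : ℝ)| ≤ c * √(hP x + 1)) ∧
      (∀ n : Fin ρ → ℤ, ∑ j, n j • e j = 0 → n = 0) ∧
      (∀ ω ∈ R, ∀ (n : Fin ρ → ℤ) (E : ℝ), 1 ≤ E →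
        (∀ j, |(n j : ℝ)| ≤ E) → hP (ω + ∑ j, n j • e j) ≤ c * E ^ 2) ∧
      (∀ (n : Fin ρ → ℤ) (E : ℝ), 1 ≤ E →
        (∀ j, |(n j : ℝ)| ≤ E) → hP (∑ j, n j • e j) ≤ c * E ^ 2) := by
  classical
  obtain ⟨e, R, hR, hind⟩ := exists_basis hFG ρ hρ
  have hC0 : 0 ≤ C := (abs_nonneg _).trans (hψ 0)
  set A : ℝ := ∑ j, ‖ψ (e j)‖ with hA
  have hA0 : 0 ≤ A := sum_nonneg fun j _ => norm_nonneg _
  set H : (Fin ρ → ℤ) → ℝ := fun n => ‖ψ (∑ j, n j • e j)‖ with hH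
  have hle : ∀ (u : Fin ρ → ℤ) (E : ℝ), (∀ j, |(u j : ℝ)| ≤ E) → 0 ≤ E → H u ≤ A * E := by
    intro u E hu _
    rw [hH]
    simp only
    rw [map_sum]
    refine (norm_sum_le _ _).trans ?_
    rw [hA, sum_mul]
    refine sum_le_sum fun j _ => ?_
    rw [map_zsmul, ← Int.cast_smul_eq_zsmul ℝ, norm_smul, Real.norm_eq_abs, mul_comm]
    exact mul_le_mul_of_nonneg_left (hu j) (norm_nonneg _)
  have hadd : ∀ u w, H (u + w) ≤ H u + H w := by
    intro u w
    rw [hH]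
    simp only
    have h1 : ∑ j, (u + w) j • e j = ∑ j, u j • e j + ∑ j, w j • e j := by
      rw [← sum_add_distrib]
      exact sum_congr rfl fun j _ => by rw [Pi.add_apply, add_smul]
    rw [h1, map_add]
    exact norm_add_le _ _
  have hsmul : ∀ (k : ℕ) u, H (fun j => (k : ℤ) * u j) = k * H u := by
    intro k u
    rw [hH]
    simp only
    have h1 : ∑ j, ((k : ℤ) * u j) • e j = (k : ℤ) • ∑ j, u j • e j := by
      rw [smul_sum]
      exact sum_congr rfl fun j _ => by rw [mul_smul]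
    rw [h1, map_zsmul, ← Int.cast_smul_eq_zsmul ℝ, norm_smul, Real.norm_eq_abs]
    simp
  have hfin : {f : Fin ρ → ℤ | H f ≤ 1 + A}.Finite := by
    refine Set.Finite.of_finite_image (f := fun f : Fin ρ → ℤ => ∑ j, f j • e j)
      ((northcott ((1 + A) ^ 2 + C)).subset ?_) ?_
    · rintro _ ⟨f, hf, rfl⟩
      rw [Set.mem_setOf_eq] at hf ⊢
      have h1 := abs_le.1 (hψ (∑ j, f j • e j))
      have h2 : ‖ψ (∑ j, f j • e j)‖ ^ 2 ≤ (1 + A) ^ 2 := pow_le_pow_left₀ (norm_nonneg _) hf 2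
      simp only
      linarith
    · intro f _ f' _ hff
      simp only at hff
      have h3 : ∑ j, (f - f') j • e j = 0 := by
        have h4 : ∑ j, (f - f') j • e j = ∑ j, f j • e j - ∑ j, f' j • e j := by
          rw [← sum_sub_distrib]
          exact sum_congr rfl fun j _ => by rw [Pi.sub_apply, sub_smul]
        rw [h4, hff, sub_self]
      exact sub_eq_zero.1 (hind _ h3)
  obtain ⟨c0, hc01, hc0⟩ := seminorm_lower H (fun _ => norm_nonneg _) hadd hsmul A hA0 hle hfin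
  set D : ℝ := ∑ ω ∈ R, ‖ψ ω‖ with hDd
  have hD0 : 0 ≤ D := sum_nonneg fun _ _ => norm_nonneg _
  have hωD : ∀ ω ∈ R, ‖ψ ω‖ ≤ D := fun ω hω =>
    single_le_sum (f := fun ω => ‖ψ ω‖) (fun _ _ => norm_nonneg _) hω
  have hc0r : (1 : ℝ) ≤ c0 := by exact_mod_cast hc01
  refine ⟨e, R, c0 * (√(1 + C) + D) + ((D + A) ^ 2 + C + 1), ?_, ?_, hind, ?_, ?_⟩
  · have : 0 ≤ (c0 : ℝ) * (√(1 + C) + D) := by positivity
    have : 0 ≤ (D + A) ^ 2 := sq_nonneg _
    linarith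
  · intro x
    obtain ⟨ω, hω, n, hn⟩ := hR x
    refine ⟨ω, hω, n, hn, fun j => (hc0 n j).trans ?_⟩
    have h1 : H n ≤ ‖ψ x‖ + D := by
      rw [hH]
      simp only
      have h2 : ∑ j, n j • e j = x - ω := by rw [hn]; abel
      rw [h2, map_sub]
      exact (norm_sub_le _ _).trans (add_le_add le_rfl (hωD ω hω))
    have h2 : ‖ψ x‖ ≤ √(1 + C) * √(hP x + 1) := by
      rw [← Real.sqrt_mul (by linarith)]
      apply Real.le_sqrt_of_sq_le
      have h3 := abs_le.1 (hψ x)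
      have h4 := hP_nonneg x
      nlinarith
    have h3 : (1 : ℝ) ≤ √(hP x + 1) := by
      rw [Real.one_le_sqrt]
      have := hP_nonneg x
      linarith
    have h4 : H n ≤ (√(1 + C) + D) * √(hP x + 1) := by
      rw [add_mul]
      refine h1.trans (add_le_add h2 ?_)
      exact le_mul_of_one_le_right hD0 h3
    calc (c0 : ℝ) * H n ≤ c0 * ((√(1 + C) + D) * √(hP x + 1)) :=
          mul_le_mul_of_nonneg_left h4 (by linarith)
      _ = c0 * (√(1 + C) + D) * √(hP x + 1) := by ring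
      _ ≤ (c0 * (√(1 + C) + D) + ((D + A) ^ 2 + C + 1)) * √(hP x + 1) := by
          refine mul_le_mul_of_nonneg_right ?_ (by positivity)
          have : 0 ≤ (D + A) ^ 2 := sq_nonneg _
          linarith
  · intro ω hω n E hE hn
    have h1 : ‖ψ (ω + ∑ j, n j • e j)‖ ≤ (D + A) * E := by
      rw [map_add]
      refine (norm_add_le _ _).trans ?_
      rw [add_mul]
      refine add_le_add ((hωD ω hω).trans (le_mul_of_one_le_right hD0 hE)) (hle n E hn (by linarith))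
    have h2 := abs_le.1 (hψ (ω + ∑ j, n j • e j))
    have h3 : ‖ψ (ω + ∑ j, n j • e j)‖ ^ 2 ≤ ((D + A) * E) ^ 2 := pow_le_pow_left₀ (norm_nonneg _) h1 2
    have h4 : 0 ≤ (c0 : ℝ) * (√(1 + C) + D) := by positivity
    have h5 : (1 : ℝ) ≤ E ^ 2 := one_le_pow₀ hE
    have h6 : (0:ℝ) ≤ (c0 * (√(1 + C) + D) + C + 1) * (E ^ 2 - 1) := mul_nonneg (by linarith) (by linarith)
    nlinarith
  · intro n E hE hn
    have h1 : ‖ψ (∑ j, n j • e j)‖ ≤ (D + A) * E := by
      refine (hle n E hn (by linarith)).trans ?_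
      refine mul_le_mul_of_nonneg_right (by linarith) (by linarith)
    have h2 := abs_le.1 (hψ (∑ j, n j • e j))
    have h3 : ‖ψ (∑ j, n j • e j)‖ ^ 2 ≤ ((D + A) * E) ^ 2 := pow_le_pow_left₀ (norm_nonneg _) h1 2
    have h4 : 0 ≤ (c0 : ℝ) * (√(1 + C) + D) := by positivity
    have h5 : (1 : ℝ) ≤ E ^ 2 := one_le_pow₀ hE
    have h6 : (0:ℝ) ≤ (c0 * (√(1 + C) + D) + C + 1) * (E ^ 2 - 1) := mul_nonneg (by linarith) (by linarith)
    nlinarith

open Classical in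
/-- the primes with a small reduction -/
theorem small_groupG {a b : ℤ} {Gp : Type} [AddCommGroup Gp] (hP : Gp → ℝ) (Adm : ℕ → Prop)
    (rr : ∀ (p : ℕ) [Fact p.Prime], Gp →+ Pt (a : ZMod p) (b : ZMod p)) (hK : Kill hP Adm rr)
    {ρ : ℕ} (e : Fin ρ → Gp) (c : ℝ) (hc : 1 ≤ c)
    (hind : ∀ n : Fin ρ → ℤ, ∑ j, n j • e j = 0 → n = 0)
    (hup : ∀ (n : Fin ρ → ℤ) (E : ℝ), 1 ≤ E → (∀ j, |(n j : ℝ)| ≤ E) →
      hP (∑ j, n j • e j) ≤ c * E ^ 2) :
    ∃ C : ℝ, 0 ≤ C ∧ ∀ (PP : Finset ℕ) (L : ℕ), 1 ≤ L →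
      (∀ p ∈ PP, ∃ hp : Fact p.Prime, Adm p ∧ Disc (a : ZMod p) (b : ZMod p) ∧
        (gset (fun k => @rr p hp (e k))).ncard < L ^ ρ) →
      (PP.card : ℝ) ≤ C * (L : ℝ) ^ (ρ + 2) := by
  refine ⟨3 ^ ρ * (c / Real.log 2), by positivity, ?_⟩
  intro PP L hL hPP
  set Bx : Finset (Fin ρ → ℤ) := Fintype.piFinset (fun _ => Finset.Icc (-(L : ℤ)) L) with hBx
  set Bx' := Bx.filter (fun v => v ≠ 0) with hBx'
  have h1 : PP ⊆ Bx'.biUnion (fun v => PP.filter (fun p => ∃ hp : Fact p.Prime, Adm p ∧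
      Disc (a : ZMod p) (b : ZMod p) ∧ @rr p hp (∑ k, v k • e k) = 0)) := by
    intro p hp
    obtain ⟨hpf, hAd, hD, hcard⟩ := hPP p hp
    rw [mem_biUnion]
    -- pigeonhole
    set S := gset (fun k => rr p (e k)) with hS
    have hSf : S.Finite := Set.toFinite _
    obtain ⟨n, hn, n', hn', hne, heq⟩ := Finset.exists_ne_map_eq_of_card_lt_of_maps_to
      (s := Fintype.piFinset (fun _ : Fin ρ => range L)) (t := hSf.toFinset)
      (f := fun n => ∑ k, n k • rr p (e k)) (by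
        rw [Fintype.card_piFinset, prod_const, card_range, card_univ, Fintype.card_fin]
        rw [← Set.ncard_eq_toFinset_card S hSf]
        exact hcard) (by
        intro n _
        rw [Set.Finite.coe_toFinset]
        exact ⟨n, rfl⟩)
    set v : Fin ρ → ℤ := fun k => (n k : ℤ) - n' k with hv
    have hv0 : v ≠ 0 := by
      intro h0
      apply hne
      funext k
      have := congrFun h0 k
      rw [hv] at this
      simp only [Pi.zero_apply] at this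
      omega
    refine ⟨v, ?_, ?_⟩
    · rw [hBx', mem_filter, hBx, Fintype.mem_piFinset]
      refine ⟨fun k => ?_, hv0⟩
      rw [Fintype.mem_piFinset] at hn hn'
      have h2 := mem_range.1 (hn k)
      have h3 := mem_range.1 (hn' k)
      rw [mem_Icc, hv]
      constructor <;> simp only <;> omega
    · rw [mem_filter]
      refine ⟨hp, hpf, hAd, hD, ?_⟩
      · rw [map_sum]
        have h4 : ∀ k, rr p (v k • e k) = n k • rr p (e k) - n' k • rr p (e k) := by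
          intro k
          rw [map_zsmul, hv]
          simp only
          rw [sub_smul, natCast_zsmul, natCast_zsmul]
        rw [Finset.sum_congr rfl fun k _ => h4 k, Finset.sum_sub_distrib]
        exact sub_eq_zero.2 heq
  have hlog : 0 < Real.log 2 := Real.log_pos (by norm_num)
  have hLr : (1 : ℝ) ≤ L := by exact_mod_cast hL
  have h2 : ∀ v ∈ Bx', ((PP.filter (fun p => ∃ hp : Fact p.Prime, Adm p ∧
      Disc (a : ZMod p) (b : ZMod p) ∧ @rr p hp (∑ k, v k • e k) = 0)).card : ℝ) ≤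
      c / Real.log 2 * (L : ℝ) ^ 2 := by
    intro v hv
    rw [hBx', mem_filter, hBx, Fintype.mem_piFinset] at hv
    have h3 := hK (∑ k, v k • e k) (fun h0 => hv.2 (hind v h0))
      (PP.filter (fun p => ∃ hp : Fact p.Prime, Adm p ∧
      Disc (a : ZMod p) (b : ZMod p) ∧ @rr p hp (∑ k, v k • e k) = 0))
      (fun p hp => (mem_filter.1 hp).2)
    have h4 : hP (∑ k, v k • e k) ≤ c * (L : ℝ) ^ 2 := by
      refine hup v L hLr ?_
      intro k
      have := mem_Icc.1 (hv.1 k)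
      rw [abs_le]
      constructor
      · exact_mod_cast this.1
      · exact_mod_cast this.2
    rw [div_mul_eq_mul_div, le_div_iff₀ hlog]
    exact h3.trans h4
  have h3 : (PP.card : ℝ) ≤ ∑ v ∈ Bx', ((PP.filter (fun p => ∃ hp : Fact p.Prime, Adm p ∧
      Disc (a : ZMod p) (b : ZMod p) ∧ @rr p hp (∑ k, v k • e k) = 0)).card : ℝ) := by
    have h4 := (card_le_card h1).trans card_biUnion_le
    exact_mod_cast h4
  refine h3.trans ((Finset.sum_le_sum h2).trans ?_)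
  rw [Finset.sum_const, nsmul_eq_mul]
  have h4 : (Bx'.card : ℝ) ≤ 3 ^ ρ * (L : ℝ) ^ ρ := by
    have h5 : Bx'.card ≤ (2 * L + 1) ^ ρ := by
      refine (card_le_card (filter_subset _ _)).trans ?_
      rw [hBx, Fintype.card_piFinset, prod_const, card_univ, Fintype.card_fin, Int.card_Icc]
      apply Nat.pow_le_pow_left
      omega
    have h6 : ((2 * L + 1 : ℕ) : ℝ) ≤ 3 * L := by push_cast; linarith
    calc (Bx'.card : ℝ) ≤ ((2 * L + 1 : ℕ) : ℝ) ^ ρ := by exact_mod_cast h5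
      _ ≤ (3 * L) ^ ρ := pow_le_pow_left₀ (Nat.cast_nonneg _) h6 ρ
      _ = 3 ^ ρ * (L : ℝ) ^ ρ := mul_pow _ _ _
  calc (Bx'.card : ℝ) * (c / Real.log 2 * (L : ℝ) ^ 2) ≤
      (3 ^ ρ * (L : ℝ) ^ ρ) * (c / Real.log 2 * (L : ℝ) ^ 2) :=
        mul_le_mul_of_nonneg_right h4 (by positivity)
    _ = 3 ^ ρ * (c / Real.log 2) * (L : ℝ) ^ (ρ + 2) := by rw [pow_add]; ring

open Classical in
/-- the pairs of primes with a small kernel -/
theorem small_kernelG {a b : ℤ} {Gp : Type} [AddCommGroup Gp] (hP : Gp → ℝ) (Adm : ℕ → Prop)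
    (rr : ∀ (p : ℕ) [Fact p.Prime], Gp →+ Pt (a : ZMod p) (b : ZMod p)) (hK : Kill hP Adm rr)
    {ρ : ℕ} (e : Fin ρ → Gp) (c : ℝ) (hc : 1 ≤ c)
    (hind : ∀ n : Fin ρ → ℤ, ∑ j, n j • e j = 0 → n = 0)
    (hup : ∀ (n : Fin ρ → ℤ) (E : ℝ), 1 ≤ E → (∀ j, |(n j : ℝ)| ≤ E) →
      hP (∑ j, n j • e j) ≤ c * E ^ 2) :
    ∃ C : ℝ, 0 ≤ C ∧ ∀ (PP : Finset ℕ) (hPf : ∀ p ∈ PP, Fact p.Prime) (M t : ℕ), 1 ≤ M → 1 ≤ t →
      (∀ p ∈ PP, ∀ hp : Fact p.Prime, Adm p ∧ Disc (a : ZMod p) (b : ZMod p) ∧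
        Fintype.card (Pt (a : ZMod p) (b : ZMod p)) < (M + 1) ^ ρ) →
      (((PP ×ˢ PP).filter (fun z => ∃ (h1 : Fact z.1.Prime) (h2 : Fact z.2.Prime),
        (kset (fun k => @rr z.1 h1 (e k)) (fun k => @rr z.2 h2 (e k))).ncard ≤ t)).card : ℝ) ≤
      C * PP.card * ((t : ℝ) ^ 3 * (M : ℝ) ^ 2) := by
  refine ⟨c / Real.log 2, by positivity, ?_⟩
  intro PP hPf M t hM ht hPP
  have hlog : 0 < Real.log 2 := Real.log_pos (by norm_num)
  -- a short vector in the kernel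
  have hv : ∀ p' ∈ PP, ∃ v : Fin ρ → ℤ, v ≠ 0 ∧ (∀ k, |(v k : ℝ)| ≤ M) ∧
      ∀ hp : Fact p'.Prime, ∑ k, v k • @rr p' hp (e k) = 0 := by
    intro p' hp'
    haveI hp := hPf p' hp'
    obtain ⟨_, hD, hcard⟩ := hPP p' hp' hp
    obtain ⟨n, hn, n', hn', hne, heq⟩ := Finset.exists_ne_map_eq_of_card_lt_of_maps_to
      (s := Fintype.piFinset (fun _ : Fin ρ => range (M + 1)))
      (t := (univ : Finset (Pt (a : ZMod p') (b : ZMod p'))))
      (f := fun n => ∑ k, n k • rr p' (e k)) (by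
        rw [Fintype.card_piFinset, prod_const, card_range, Finset.card_univ (α := Fin ρ),
          Fintype.card_fin, card_univ]
        exact hcard) (by
        intro n _
        exact mem_coe.2 (mem_univ _))
    refine ⟨fun k => (n k : ℤ) - n' k, ?_, ?_, ?_⟩
    · intro h0
      apply hne
      funext k
      have := congrFun h0 k
      simp only [Pi.zero_apply] at this
      omega
    · intro k
      rw [Fintype.mem_piFinset] at hn hn'
      have h2 := mem_range.1 (hn k)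
      have h3 := mem_range.1 (hn' k)
      have h4 : |((n k : ℤ) - n' k)| ≤ M := by
        rw [abs_le]
        constructor <;> omega
      exact_mod_cast h4
    · intro hp2
      have h4 : ∀ k, ((n k : ℤ) - n' k) • rr p' (e k) =
          n k • rr p' (e k) - n' k • rr p' (e k) := by
        intro k
        rw [sub_smul, natCast_zsmul, natCast_zsmul]
      rw [Finset.sum_congr rfl fun k _ => h4 k, Finset.sum_sub_distrib]
      exact sub_eq_zero.2 heq
  choose! v hv0 hvM hvz using hv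
  set Dv : ℕ → ℕ → Gp := fun p' s => ∑ k, ((s : ℤ) * v p' k) • e k with hDv
  set KP : ℕ → Gp → Prop := fun p g => ∃ hp : Fact p.Prime, Adm p ∧
      Disc (a : ZMod p) (b : ZMod p) ∧ @rr p hp g = 0 with hKP
  have hDv0 : ∀ p' ∈ PP, ∀ s, 1 ≤ s → Dv p' s ≠ 0 := by
    intro p' hp' s hs h0
    have h2 := hind _ h0
    apply hv0 p' hp'
    funext k
    have h3 := congrFun h2 k
    simp only [Pi.zero_apply, mul_eq_zero] at h3
    rcases h3 with h3 | h3
    · omega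
    · exact h3
  have h1 : (PP ×ˢ PP).filter (fun z => ∃ (h1 : Fact z.1.Prime) (h2 : Fact z.2.Prime),
        (kset (fun k => @rr z.1 h1 (e k)) (fun k => @rr z.2 h2 (e k))).ncard ≤ t) ⊆
      PP.biUnion (fun p' => (Finset.Icc 1 t).biUnion (fun s =>
        (PP.filter (fun p => KP p (Dv p' s))).image (fun p => (p, p')))) := by
    rintro ⟨p, p'⟩ hz
    rw [mem_filter, mem_product] at hz
    obtain ⟨⟨hp, hp'⟩, hfp, hfp', hK⟩ := hz
    simp only at hp hp' hfp hfp' hK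
    rw [mem_biUnion]
    refine ⟨p', hp', ?_⟩
    rw [mem_biUnion]
    obtain ⟨hk1, hk2⟩ := kset_nsmul (fun k => rr p (e k)) (fun k => rr p' (e k)) (v p')
      (hvz p' hp' hfp')
    set s := (kset (fun k => rr p (e k)) (fun k => rr p' (e k))).ncard with hs
    refine ⟨s, mem_Icc.2 ⟨hk1, hK⟩, ?_⟩
    rw [mem_image]
    refine ⟨p, mem_filter.2 ⟨hp, hfp, (hPP p hp hfp).1, (hPP p hp hfp).2.1, ?_⟩, rfl⟩
    · rw [map_sum]
      have h4 : ∀ k, rr p (((s : ℤ) * v p' k) • e k) = s • (v p' k • rr p (e k)) := by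
        intro k
        rw [map_zsmul, mul_smul, natCast_zsmul]
      rw [Finset.sum_congr rfl fun k _ => h4 k, ← Finset.smul_sum]
      exact hk2
  have hMr : (1 : ℝ) ≤ M := by exact_mod_cast hM
  have htr : (1 : ℝ) ≤ t := by exact_mod_cast ht
  have h2 : ∀ p' ∈ PP, ∀ s ∈ Finset.Icc 1 t,
      ((PP.filter (fun p => KP p (Dv p' s))).card : ℝ) ≤
        c / Real.log 2 * ((t : ℝ) * M) ^ 2 := by
    intro p' hp' s hs
    rw [mem_Icc] at hs
    have h3 := hK (Dv p' s) (hDv0 p' hp' s hs.1) (PP.filter (fun p => KP p (Dv p' s)))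
      (fun p hp => (mem_filter.1 hp).2)
    have h4 : hP (Dv p' s) ≤ c * ((t : ℝ) * M) ^ 2 := by
      refine hup _ _ (by nlinarith) ?_
      intro k
      rw [Int.cast_mul, abs_mul]
      refine mul_le_mul ?_ (hvM p' hp' k) (abs_nonneg _) (by linarith)
      rw [Int.cast_natCast, Nat.abs_cast]
      exact_mod_cast hs.2
    rw [div_mul_eq_mul_div, le_div_iff₀ hlog]
    exact h3.trans h4
  have h3 : (((PP ×ˢ PP).filter (fun z => ∃ (h1 : Fact z.1.Prime) (h2 : Fact z.2.Prime),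
        (kset (fun k => @rr z.1 h1 (e k)) (fun k => @rr z.2 h2 (e k))).ncard ≤ t)).card : ℝ) ≤
      ∑ p' ∈ PP, ∑ s ∈ Finset.Icc 1 t, ((PP.filter (fun p => KP p (Dv p' s))).card : ℝ) := by
    have h4 : ((PP ×ˢ PP).filter (fun z => ∃ (h1 : Fact z.1.Prime) (h2 : Fact z.2.Prime),
        (kset (fun k => @rr z.1 h1 (e k)) (fun k => @rr z.2 h2 (e k))).ncard ≤ t)).card ≤
      ∑ p' ∈ PP, ∑ s ∈ Finset.Icc 1 t, (PP.filter (fun p => KP p (Dv p' s))).card := by
      refine (card_le_card h1).trans (card_biUnion_le.trans (Finset.sum_le_sum fun p' _ => ?_))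
      exact card_biUnion_le.trans (Finset.sum_le_sum fun s _ => card_image_le)
    exact_mod_cast h4
  refine h3.trans ((Finset.sum_le_sum fun p' hp' => Finset.sum_le_sum (h2 p' hp')).trans ?_)
  rw [Finset.sum_const, Finset.sum_const, Nat.card_Icc, Nat.add_sub_cancel, nsmul_eq_mul,
    nsmul_eq_mul]
  refine le_of_eq ?_
  ring

theorem HBg_mono {Gp : Type} [AddCommGroup Gp] {hP : Gp → ℝ} {ρ : ℕ} {e : Fin ρ → Gp} {c c' : ℝ}
    (h : HBg hP e c) (hc : c ≤ c') : HBg hP e c' := by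
  refine ⟨h.1.trans hc, h.2.1, ?_⟩
  intro n E hE hn
  exact (h.2.2 n E hE hn).trans (mul_le_mul_of_nonneg_right hc (by positivity))

/-- **The cover.** -/
theorem coverG {Gp : Type} [AddCommGroup Gp] (hFG : AddGroup.FG Gp) (hP : Gp → ℝ)
    (hP_nonneg : ∀ P, 0 ≤ hP P) (northcott : ∀ B : ℝ, {P : Gp | hP P ≤ B}.Finite)
    (hψ : ∃ (m : ℕ) (ψ : Gp →+ EuclideanSpace ℝ (Fin m)) (C : ℝ), ∀ P, |‖ψ P‖ ^ 2 - hP P| ≤ C) (m : ℕ)
    (hm : m ≤ Module.finrank ℤ (Gp)) :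
    ∃ (e₀ : Fin m → Gp) (c C : ℝ), HBg hP e₀ c ∧ 0 ≤ C ∧
      ∀ T₁ : ℕ, ∃ Sh : Finset (Gp),
        (Sh.card : ℝ) ≤ C * ((2 * T₁ + 1 : ℕ) : ℝ) ^ (Module.finrank ℤ (Gp) - m) ∧
        ∀ x, c * √(hP x + 1) ≤ T₁ → ∃ σ ∈ Sh, ∃ n : Fin m → ℕ, (∀ k, n k < 2 * T₁ + 1) ∧
          x = σ + ∑ k, n k • e₀ k := by
  classical
  obtain ⟨ρ', hρ'⟩ := Nat.exists_eq_add_of_le hm
  obtain ⟨m', ψ, C, hψ⟩ := hψ
  obtain ⟨e, R, c, hc, hco, hind, _, hup⟩ := coordsG hFG hP hP_nonneg northcott ψ hψ (m + ρ') hρ'.symm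
  set e₀ : Fin m → Gp := fun k => e (Fin.castAdd ρ' k) with he₀
  set e₁ : Fin ρ' → Gp := fun k => e (Fin.natAdd m k) with he₁
  have hext : ∀ n : Fin m → ℤ, ∑ k, n k • e₀ k =
      ∑ k, (Fin.append n (fun _ : Fin ρ' => (0 : ℤ))) k • e k := by
    intro n
    rw [Fin.sum_univ_add]
    simp only [Fin.append_left, Fin.append_right, zero_smul, sum_const_zero, add_zero, he₀]
  refine ⟨e₀, c, R.card, ⟨hc, ?_, ?_⟩, Nat.cast_nonneg _, ?_⟩
  · intro n hn
    rw [hext] at hn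
    have h1 := hind _ hn
    funext k
    have h2 := congrFun h1 (Fin.castAdd ρ' k)
    rw [Fin.append_left] at h2
    exact h2
  · intro n E hE hn
    rw [hext]
    refine hup _ E hE ?_
    intro k
    refine Fin.addCases (fun i => ?_) (fun i => ?_) k
    · rw [Fin.append_left]; exact hn i
    · rw [Fin.append_right, Int.cast_zero, abs_zero]; linarith
  · intro T₁
    set s₀ : Gp := ∑ k, (T₁ : ℤ) • e k with hs₀
    set Sh : Finset (Gp) :=
      (R ×ˢ Fintype.piFinset (fun _ : Fin ρ' => range (2 * T₁ + 1))).image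
        (fun z => z.1 - s₀ + ∑ k, z.2 k • e₁ k) with hSh
    refine ⟨Sh, ?_, ?_⟩
    · have h1 : Sh.card ≤ R.card * (2 * T₁ + 1) ^ ρ' := by
        refine card_image_le.trans ?_
        rw [card_product, Fintype.card_piFinset, prod_const, card_range, card_univ,
          Fintype.card_fin]
      have h2 : Module.finrank ℤ (Gp) - m = ρ' := by
        rw [hρ', Nat.add_sub_cancel_left]
      rw [h2]
      exact_mod_cast h1
    · intro x hx
      obtain ⟨ω, hω, n, hxn, hn⟩ := hco x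
      have hnb : ∀ k, -(T₁ : ℤ) ≤ n k ∧ n k ≤ T₁ := by
        intro k
        have h1 := abs_le.1 ((hn k).trans hx)
        constructor
        · exact_mod_cast h1.1
        · exact_mod_cast h1.2
      have hnat : ∀ k, ∃ q : ℕ, (q : ℤ) = n k + T₁ ∧ q < 2 * T₁ + 1 := by
        intro k
        obtain ⟨h1, h2⟩ := hnb k
        refine ⟨(n k + T₁).toNat, ?_, ?_⟩
        · omega
        · omega
      choose q hq hqT using hnat
      refine ⟨ω - s₀ + ∑ k, q (Fin.natAdd m k) • e₁ k, ?_, fun k => q (Fin.castAdd ρ' k),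
        fun k => hqT _, ?_⟩
      · rw [hSh, mem_image]
        refine ⟨(ω, fun k => q (Fin.natAdd m k)), ?_, rfl⟩
        rw [mem_product]
        refine ⟨hω, ?_⟩
        rw [Fintype.mem_piFinset]
        intro k
        rw [mem_range]
        exact hqT _
      · rw [hxn]
        have h1 : ∑ k, n k • e k = ∑ k, q k • e k - s₀ := by
          rw [hs₀, ← sum_sub_distrib]
          refine sum_congr rfl fun k _ => ?_
          rw [← natCast_zsmul, hq k, add_smul]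
          abel
        rw [h1, Fin.sum_univ_add]
        simp only [he₀, he₁]
        abel

/-- **The lower bound.** -/
theorem lowerG {Gp : Type} [AddCommGroup Gp] (hFG : AddGroup.FG Gp) (hP : Gp → ℝ)
    (hP_nonneg : ∀ P, 0 ≤ hP P) (northcott : ∀ B : ℝ, {P : Gp | hP P ≤ B}.Finite)
    (hψ : ∃ (m : ℕ) (ψ : Gp →+ EuclideanSpace ℝ (Fin m)) (C : ℝ), ∀ P, |‖ψ P‖ ^ 2 - hP P| ≤ C) (h00 : hP 0 = 0) : ∃ c₀ : ℝ, 0 < c₀ ∧ ∀ B : ℝ, 0 ≤ B →
    ∀ hfin : {x : Gp | hP x ≤ B}.Finite,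
    c₀ * B ^ ((Module.finrank ℤ (Gp) : ℝ) / 2) ≤
      ({x : Gp | hP x ≤ B}.ncard : ℝ) := by
  classical
  set ρ := Module.finrank ℤ (Gp) with hρ
  obtain ⟨m', ψ, C, hψ⟩ := hψ
  obtain ⟨e, R, c, hc, hco, hind, _, hup⟩ := coordsG hFG hP hP_nonneg northcott ψ hψ ρ hρ
  have hc0 : 0 < c := by linarith
  refine ⟨(1 / c) ^ ((ρ : ℝ) / 2), by positivity, ?_⟩
  intro B hB hfin
  set E : ℝ := √(B / c) with hE
  set M : ℕ := ⌊E⌋₊ with hM
  have hinj : Function.Injective (fun n : Fin ρ → ℕ => ∑ k, n k • e k) := by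
    intro n n' hnn
    simp only at hnn
    have h1 : ∑ k, ((n k : ℤ) - n' k) • e k = 0 := by
      have h2 : ∀ k, ((n k : ℤ) - n' k) • e k = n k • e k - n' k • e k := by
        intro k
        rw [sub_smul, natCast_zsmul, natCast_zsmul]
      rw [sum_congr rfl fun k _ => h2 k, sum_sub_distrib, hnn, sub_self]
    have h2 := hind _ h1
    funext k
    have h3 := congrFun h2 k
    simp only [Pi.zero_apply] at h3
    omega
  have hsub : (((Fintype.piFinset (fun _ : Fin ρ => range (M + 1))).image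
      (fun n : Fin ρ → ℕ => ∑ k, n k • e k) : Finset _) : Set (Gp)) ⊆
      {x : Gp | hP x ≤ B} := by
    intro x hx
    rw [mem_coe, mem_image] at hx
    obtain ⟨n, hn, rfl⟩ := hx
    rw [Fintype.mem_piFinset] at hn
    rw [Set.mem_setOf_eq]
    by_cases hE1 : 1 ≤ E
    · have h1 := hup (fun k => (n k : ℤ)) E hE1 (by
        intro k
        have h2 := mem_range.1 (hn k)
        have h3 : (n k : ℝ) ≤ M := by exact_mod_cast Nat.lt_succ_iff.1 h2
        have h4 : (M : ℝ) ≤ E := Nat.floor_le (Real.sqrt_nonneg _)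
        rw [Int.cast_natCast, Nat.abs_cast]
        exact h3.trans h4)
      have h2 : c * E ^ 2 = B := by
        rw [hE, Real.sq_sqrt (by positivity), mul_div_cancel₀ _ hc0.ne']
      rw [h2] at h1
      simp only [natCast_zsmul] at h1
      exact h1
    · have hM0 : M = 0 := by
        rw [hM, Nat.floor_eq_zero]
        exact not_le.1 hE1
      have h1 : ∀ k, n k = 0 := by
        intro k
        have h2 := mem_range.1 (hn k)
        omega
      have h2 : ∑ k, n k • e k = 0 := by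
        refine sum_eq_zero fun k _ => ?_
        rw [h1 k, zero_smul]
      rw [h2, h00]
      exact hB
  have h1 := Set.ncard_le_ncard hsub hfin
  rw [Set.ncard_coe_finset, card_image_of_injective _ hinj, Fintype.card_piFinset, prod_const,
    card_range, card_univ, Fintype.card_fin] at h1
  have h2 : E ≤ ((M + 1 : ℕ) : ℝ) := by
    push_cast
    exact (Nat.lt_floor_add_one E).le
  have h3 : E ^ ρ ≤ ((M + 1 : ℕ) : ℝ) ^ ρ := pow_le_pow_left₀ (Real.sqrt_nonneg _) h2 ρ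
  have h4 : ((M + 1 : ℕ) : ℝ) ^ ρ ≤ ({x : Gp | hP x ≤ B}.ncard : ℝ) := by
    exact_mod_cast h1
  refine le_trans (le_of_eq ?_) (h3.trans h4)
  rw [hE, Real.sqrt_eq_rpow, ← Real.rpow_natCast, ← Real.rpow_mul (by positivity),
    div_eq_mul_inv B c, Real.mul_rpow hB (by positivity), one_div, mul_comm]
  congr 1 <;> congr 1 <;> ring

end Pool.Agent.K9h5.N
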