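import Mathlib
import Pool.Agent.K9h5.Ht
import Pool.Agent.H901R3.MS.P_M1K
import Pool.Agent.H437R2.Man.MWPar

/-!
# Heights on elliptic curves over number fields
-/

set_option autoImplicit false
set_option linter.all false

namespace Pool.Agent.K9h5.N

open Pool.Agent.H901R3.MS WeierstrassCurve Height Pool.Agent.K9h5

section

variable {K : Type} [Field K] {a b : K}

theorem cv_ell (hD : Disc a b) : (CV a b).IsElliptic := by
  refine ⟨?_⟩
  have h1 : (CV a b).Δ = -16 * (4 * a ^ 3 + 27 * b ^ 2) := by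
    simp only [WeierstrassCurve.Δ, WeierstrassCurve.b₂, WeierstrassCurve.b₄, WeierstrassCurve.b₆,
      WeierstrassCurve.b₈, CV]
    ring
  rw [h1, isUnit_iff_ne_zero]
  unfold Disc at hD
  have h2 := left_ne_zero_of_mul hD
  have h3 := right_ne_zero_of_mul hD
  have h16 : (-16 : K) ≠ 0 := by
    have : (-16 : K) = -(2 ^ 4) := by norm_num
    rw [this, neg_ne_zero]
    exact pow_ne_zero _ h2
  exact mul_ne_zero h16 h3

/-- numerator of `x(P+Q)` where `s = y1*y2` -/
def nmr (a b x1 x2 s : K) : K := x1 * x2 * (x1 + x2) + a * (x1 + x2) + 2 * b - 2 * s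

theorem ev_addSub (a b s t u : K) :
    (fun i ↦ (addSubMap (CV a b) i).eval ![s, t, u])
      = ![s ^ 2 - 2 * a * s * u - 4 * b * t * u + a ^ 2 * u ^ 2,
          2 * t * s + 2 * a * t * u + 4 * b * u ^ 2, t ^ 2 - 4 * s * u] := by
  funext i
  fin_cases i
  · simp only [addSubMap, WeierstrassCurve.b₂, WeierstrassCurve.b₄, WeierstrassCurve.b₆,
      WeierstrassCurve.b₈, CV]
    simp
    try ring
  · simp only [addSubMap, WeierstrassCurve.b₂, WeierstrassCurve.b₄, WeierstrassCurve.b₆,
      WeierstrassCurve.b₈, CV]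
    simp
    try ring
  · simp only [addSubMap, WeierstrassCurve.b₂, WeierstrassCurve.b₄, WeierstrassCurve.b₆,
      WeierstrassCurve.b₈, CV]
    simp

variable [DecidableEq K]

theorem xRep_add' {x1 y1 x2 y2 : K} (h1 : (CV a b).toAffine.Nonsingular x1 y1)
    (h2 : (CV a b).toAffine.Nonsingular x2 y2) (hx : x1 ≠ x2) :
    (Affine.Point.some x1 y1 h1 + Affine.Point.some x2 y2 h2 : Pt a b).xRep
      = ![nmr a b x1 x2 (y1 * y2) / (x1 - x2) ^ 2, 1] := by
  rw [Affine.Point.add_of_X_ne hx, Affine.Point.xRep_some]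
  congr 1
  rw [Affine.slope_of_X_ne hx, Affine.addX]
  have e1' : y1 ^ 2 = x1 ^ 3 + a * x1 + b := eqn_of h1
  have e2' : y2 ^ 2 = x2 ^ 3 + a * x2 + b := eqn_of h2
  have hx' : x1 - x2 ≠ 0 := sub_ne_zero.mpr hx
  simp only [CV, nmr]
  field_simp
  ring_nf
  ring_nf at e1' e2'
  linear_combination e1' + e2'

theorem xRep_dbl (h2 : (2 : K) ≠ 0) {x y : K} (h : (CV a b).toAffine.Nonsingular x y) (hy : y ≠ 0) :
    (Affine.Point.some x y h + Affine.Point.some x y h : Pt a b).xRep
      = ![(x ^ 4 - 2 * a * x ^ 2 - 8 * b * x + a ^ 2) / (4 * y ^ 2), 1] := by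
  have hy' : y ≠ (CV a b).toAffine.negY x y := by
    simp only [Affine.negY, CV]
    intro hh
    apply hy
    have h2' : (2 : K) * y = 0 := by linear_combination hh
    rcases mul_eq_zero.mp h2' with h3 | h3
    · exact absurd h3 h2
    · exact h3
  rw [Affine.Point.add_self_of_Y_ne hy', Affine.Point.xRep_some]
  congr 1
  rw [Affine.slope_of_Y_ne rfl hy', Affine.addX]
  have e' : y ^ 2 = x ^ 3 + a * x + b := eqn_of h
  have h4' : (4 : K) ≠ 0 := by
    have : (4 : K) = 2 ^ 2 := by norm_num
    rw [this]; exact pow_ne_zero _ h2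
  have h4 : y ^ 2 * 4 ≠ 0 := mul_ne_zero (pow_ne_zero _ hy) h4'
  simp only [CV, Affine.negY]
  have e3' : y - (-y - 0 * x - 0) = 2 * y := by ring
  rw [e3']
  field_simp
  ring_nf
  ring_nf at e'
  linear_combination (-32 * x) * e'

/-- the addition-subtraction map does what it should. -/
theorem addSub_sym2x' (hD : Disc a b) (P Q : Pt a b) :
    ∃ c : K, c ≠ 0 ∧ (fun i ↦ (addSubMap (CV a b) i).eval (P.sym2x Q))
      = c • (P + Q).sym2x (P - Q) := by
  have h2 : (2 : K) ≠ 0 := left_ne_zero_of_mul hD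
  have h4' : (4 : K) ≠ 0 := by
    have : (4 : K) = 2 ^ 2 := by norm_num
    rw [this]; exact pow_ne_zero _ h2
  match P, Q with
  | 0, 0 =>
    refine ⟨1, one_ne_zero, ?_⟩
    rw [Affine.Point.sym2x_zero_zero, ev_addSub]
    simp
  | 0, .some x y h =>
    refine ⟨1, one_ne_zero, ?_⟩
    rw [Affine.Point.sym2x_zero_some, ev_addSub, zero_add, zero_sub, Affine.Point.sym2x_neg_right,
      Affine.Point.sym2x_some_some]
    simp only [one_smul]
    ext i
    fin_cases i <;> simp <;> ring
  | .some x y h, 0 =>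
    refine ⟨1, one_ne_zero, ?_⟩
    rw [Affine.Point.sym2x_some_zero, ev_addSub, add_zero, sub_zero,
      Affine.Point.sym2x_some_some]
    simp only [one_smul]
    ext i
    fin_cases i <;> simp <;> ring
  | .some x1 y1 h1, .some x2 y2 h2' =>
    have q1 : y1 ^ 2 = x1 ^ 3 + a * x1 + b := eqn_of h1
    have q2 : y2 ^ 2 = x2 ^ 3 + a * x2 + b := eqn_of h2'
    by_cases hx : x1 = x2
    · subst hx
      -- P = ± Q
      have hyy : y1 = y2 ∨ y1 = -y2 := by
        apply sq_eq_sq_iff_eq_or_eq_neg.mp
        rw [q1, q2]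
      have main : ∀ (y : K) (h : (CV a b).toAffine.Nonsingular x1 y),
          ∃ c : K, c ≠ 0 ∧ (fun i ↦ (addSubMap (CV a b) i).eval
            ((Affine.Point.some x1 y h : Pt a b).sym2x (Affine.Point.some x1 y h)))
            = c • ((Affine.Point.some x1 y h : Pt a b) + Affine.Point.some x1 y h).sym2x 0 := by
        intro y h
        have q : y ^ 2 = x1 ^ 3 + a * x1 + b := eqn_of h
        by_cases hy : y = 0
        · subst hy
          have hneg : (Affine.Point.some x1 0 h : Pt a b) + Affine.Point.some x1 0 h = 0 := by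
            apply Affine.Point.add_self_of_Y_eq
            simp [Affine.negY, CV]
          rw [hneg, Affine.Point.sym2x_zero_zero, Affine.Point.sym2x_some_some, ev_addSub]
          have hq : x1 ^ 3 + a * x1 + b = 0 := by rw [← q]; ring
          have hb : b = -x1 ^ 3 - a * x1 := by linear_combination hq
          refine ⟨(3 * x1 ^ 2 + a) ^ 2, ?_, ?_⟩
          · apply pow_ne_zero
            intro h3
            apply hD
            have ha : a = -3 * x1 ^ 2 := by linear_combination h3
            rw [hb, ha]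
            ring
          · ext i
            fin_cases i
            · simp
              rw [hb]
              ring
            · simp
              rw [hb]
              ring
            · simp
              ring
        · have hd := xRep_dbl h2 h hy
          have hy4 : 4 * y ^ 2 ≠ 0 := mul_ne_zero h4' (pow_ne_zero _ hy)
          refine ⟨4 * y ^ 2, hy4, ?_⟩
          rw [Affine.Point.sym2x_some_some, ev_addSub]
          ext i
          fin_cases i
          · simp [Affine.Point.sym2x, hd]
            field_simp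
            ring
          · simp [Affine.Point.sym2x, hd]
            linear_combination (-4) * q
          · simp [Affine.Point.sym2x, hd]
            ring
      rcases hyy with hyy | hyy
      · subst hyy
        have := main y1 h1
        rwa [sub_self]
      · subst hyy
        have hne : (Affine.Point.some x1 (-y2) h1 : Pt a b) = -Affine.Point.some x1 y2 h2' := by
          rw [neg_some' h2' h1]
        rw [hne]
        rw [Affine.Point.sym2x_neg_left, neg_add_cancel, Affine.Point.sym2x_comm 0, ← neg_add',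
          Affine.Point.sym2x_neg_left]
        exact main y2 h2'
    · have hx' : x1 - x2 ≠ 0 := sub_ne_zero.mpr hx
      have h2'' : (CV a b).toAffine.Nonsingular x2 (-y2) := by
        rw [nonsingular_iff hD]
        show (-y2) ^ 2 = _
        rw [← q2]; ring
      have ha := xRep_add' h1 h2' hx
      have hb := xRep_add' h1 h2'' hx
      rw [← neg_some' h2' h2'', ← sub_eq_add_neg] at hb
      refine ⟨(x1 - x2) ^ 2, pow_ne_zero _ hx', ?_⟩
      rw [Affine.Point.sym2x_some_some, ev_addSub]
      ext i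
      fin_cases i
      · simp [Affine.Point.sym2x, ha, hb, nmr]
        field_simp
        linear_combination 4 * y2 ^ 2 * q1 + 4 * (x1 ^ 3 + a * x1 + b) * q2
      · simp [Affine.Point.sym2x, ha, hb, nmr]
        field_simp
        ring
      · simp [Affine.Point.sym2x, ha, hb, nmr]
        ring

end

section

variable {K : Type} [Field K] [NumberField K] {a b : K}

/-- the logarithmic height of the `x`-coordinate, relative to `K` -/
noncomputable def hK (P : Pt a b) : ℝ := logHeight P.xRep

theorem hK_nonneg (P : Pt a b) : 0 ≤ hK P := logHeight_nonneg _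

theorem hK_zero : hK (0 : Pt a b) = 0 := by
  rw [hK, Affine.Point.xRep_zero, logHeight_swap, ← logHeight₁_eq_logHeight, logHeight₁_zero]

theorem hK_some (x y : K) (h : (CV a b).toAffine.Nonsingular x y) :
    hK (Affine.Point.some x y h : Pt a b) = logHeight₁ x := by
  rw [hK, Affine.Point.xRep_some, logHeight₁_eq_logHeight]

theorem sym2x_hK (a b : K) : ∃ C : ℝ, ∀ P Q : Pt a b,
    |logHeight (P.sym2x Q) - (hK P + hK Q)| ≤ C := by
  obtain ⟨C, hC⟩ := abs_logHeight_sym2_sub_le K
  refine ⟨C, fun P Q ↦ ?_⟩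
  have hP : P.xRep = ![P.xRep 0, P.xRep 1] := by
    ext i; fin_cases i <;> simp
  have hQ : Q.xRep = ![Q.xRep 0, Q.xRep 1] := by
    ext i; fin_cases i <;> simp
  have hP0 : ![P.xRep 0, P.xRep 1] ≠ 0 := by rw [← hP]; exact P.xRep_ne_zero
  have hQ0 : ![Q.xRep 0, Q.xRep 1] ≠ 0 := by rw [← hQ]; exact Q.xRep_ne_zero
  have := hC hP0 hQ0
  rw [← hP, ← hQ] at this
  exact this

/-- approximate parallelogram law for the height -/
theorem paralK [DecidableEq K] (hD : Disc a b) : ∃ C : ℝ, ∀ P Q : Pt a b,
    |hK (P + Q) + hK (P - Q) - 2 * (hK P + hK Q)| ≤ C := by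
  have := cv_ell hD
  obtain ⟨C1, hC1⟩ := sym2x_hK a b
  obtain ⟨C2, hC2⟩ := WeierstrassCurve.abs_logHeight_addSubMap_sub_two_mul_logHeight_le (CV a b)
  refine ⟨3 * C1 + C2, ?_⟩
  intro P Q
  have a1 := hC1 P Q
  have a2 := hC1 (P + Q) (P - Q)
  have a3 := hC2 (P.sym2x Q)
  obtain ⟨c, hc, hceq⟩ := addSub_sym2x' hD P Q
  rw [hceq, logHeight_smul_eq_logHeight _ hc] at a3
  rw [abs_le] at a1 a2 a3 ⊢
  constructor <;> linarith [a1.1, a1.2, a2.1, a2.2, a3.1, a3.2]

/-- the canonical height as the square of a norm -/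
theorem canonK [DecidableEq K] (hD : Disc a b) : ∃ (n : ℕ)
    (ψ : Pt a b →+ EuclideanSpace ℝ (Fin n)) (C : ℝ), ∀ P, |‖ψ P‖ ^ 2 - hK P| ≤ C := by
  obtain ⟨C, hC⟩ := paralK hD
  obtain ⟨q, C', h1, h2, h3⟩ := Pool.Agent.H437R2.Man.MW.canon (hK (a := a) (b := b)) C hK_nonneg hC
  obtain ⟨n, ψ, hψ⟩ := Pool.Agent.H437R2.Man.MW.embed (t_M1K K a b hD) q h2 h3
  exact ⟨n, ψ, C', fun P => by rw [hψ]; exact h1 P⟩

/-- Northcott's theorem -/
theorem northK (B : ℝ) : {P : Pt a b | hK P ≤ B}.Finite := by
  classical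
  have hfin := NumberField.finite_setOfPred_logHeight₁_le (K := K) B
  have h1 : ((fun P : Pt a b => P.xRep) '' {P : Pt a b | hK P ≤ B}).Finite := by
    apply Set.Finite.subset ((hfin.image (fun x : K => ![x, 1])).union (Set.finite_singleton ![1, 0]))
    rintro _ ⟨P, hP, rfl⟩
    match P, hP with
    | 0, _ => right; simp
    | .some x y h, hP =>
      left
      refine ⟨x, ?_, by simp⟩
      simp only [Set.mem_setOf_eq] at hP ⊢
      rw [hK_some] at hP
      exact hP
  apply Set.Finite.of_finite_fibers _ h1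
  intro v _
  by_cases hv : ∃ P : Pt a b, P.xRep = v
  · obtain ⟨P, rfl⟩ := hv
    apply Set.Finite.subset (s := {P, -P}) (by simp)
    intro Q hQ
    have : Q.xRep = P.xRep := hQ.2
    rcases Affine.Point.eq_or_eq_neg_of_xRep_eq_xRep this with h | h
    · left; exact h
    · right; exact h
  · apply Set.Finite.subset (Set.finite_empty)
    intro Q hQ
    exact absurd ⟨Q, hQ.2⟩ hv

end

end Pool.Agent.K9h5.N
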