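import Mathlib
import Pool.Agent.K9h5.N.Hk
import Pool.Agent.K9h5.N.Gen1
import Pool.Agent.H901R3.MS.AllK

/-!
# Reductions at the degree one primes of a number field
-/

set_option autoImplicit false
set_option linter.all false

namespace Pool.Agent.K9h5.N

open Pool.Agent.H901R3.MS WeierstrassCurve Height Pool.Agent.K9h5 NumberField

section

variable (K : Type) [Field K] [NumberField K]

/-- the prime `p` has a prime of degree one above it -/
def AdmK (p : ℕ) : Prop := Nonempty (𝓞 K →+* ZMod p)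

/-- the place at a prime of degree one above `p` -/
noncomputable def vK (p : ℕ) [Fact p.Prime] (h : AdmK K p) : Place K (ZMod p) :=
  Classical.choose (t_PLK K p (Classical.choice h))

theorem vK_spec (p : ℕ) [Fact p.Prime] (h : AdmK K p) (x : 𝓞 K) :
    (x : K) ∈ (vK K p h).A ∧ (vK K p h).r (x : K) = Classical.choice h x :=
  Classical.choose_spec (t_PLK K p (Classical.choice h)) x

variable [DecidableEq K]

theorem exists_rdK (p : ℕ) [Fact p.Prime] (h : AdmK K p) (a b : ℤ)
    (hD : Disc (a : ZMod p) (b : ZMod p)) :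
    ∃ red : Pt (a : K) (b : K) →+ Pt (a : ZMod p) (b : ZMod p),
      (∀ (x y : K) (hn : (CV (a : K) (b : K)).toAffine.Nonsingular x y), x ∉ (vK K p h).A →
        red (Affine.Point.some x y hn) = Affine.Point.zero) ∧
      (∀ (x y : K) (hn : (CV (a : K) (b : K)).toAffine.Nonsingular x y), x ∈ (vK K p h).A →
        y ∈ (vK K p h).A ∧ ∃ g : (CV (a : ZMod p) (b : ZMod p)).toAffine.Nonsingular
            ((vK K p h).r x) ((vK K p h).r y),
          red (Affine.Point.some x y hn) = Affine.Point.some _ _ g) ∧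
      ∀ P : Pt (a : K) (b : K), ∃ u : K, u ≠ 0 ∧ ∀ j, u * rep P j ∈ (vK K p h).A ∧
        (vK K p h).r (u * rep P j) = rep (red P) j :=
  redK (vK K p h) (a : K) (b : K) (a : ZMod p) (b : ZMod p) ((vK K p h).int_mem a)
    ((vK K p h).int_mem b) ((vK K p h).r_int a) ((vK K p h).r_int b) hD

open Classical in
/-- the reduction homomorphism modulo `p` -/
noncomputable def rdK (p : ℕ) [Fact p.Prime] (a b : ℤ) :
    Pt (a : K) (b : K) →+ Pt (a : ZMod p) (b : ZMod p) :=
  if h : ∃ _ : AdmK K p, Disc (a : ZMod p) (b : ZMod p) then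
    Classical.choose (exists_rdK K p h.1 a b h.2) else 0

theorem rdK_spec (p : ℕ) [Fact p.Prime] (h : AdmK K p) (a b : ℤ)
    (hD : Disc (a : ZMod p) (b : ZMod p)) :
      (∀ (x y : K) (hn : (CV (a : K) (b : K)).toAffine.Nonsingular x y), x ∉ (vK K p h).A →
        rdK K p a b (Affine.Point.some x y hn) = Affine.Point.zero) ∧
      (∀ (x y : K) (hn : (CV (a : K) (b : K)).toAffine.Nonsingular x y), x ∈ (vK K p h).A →
        y ∈ (vK K p h).A ∧ ∃ g : (CV (a : ZMod p) (b : ZMod p)).toAffine.Nonsingular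
            ((vK K p h).r x) ((vK K p h).r y),
          rdK K p a b (Affine.Point.some x y hn) = Affine.Point.some _ _ g) ∧
      ∀ P : Pt (a : K) (b : K), ∃ u : K, u ≠ 0 ∧ ∀ j, u * rep P j ∈ (vK K p h).A ∧
        (vK K p h).r (u * rep P j) = rep (rdK K p a b P) j := by
  have h1 := Classical.choose_spec (exists_rdK K p h a b hD)
  have h2 : ∃ _ : AdmK K p, Disc (a : ZMod p) (b : ZMod p) := ⟨h, hD⟩
  unfold rdK
  rw [dif_pos h2]
  exact h1

/-- few primes kill a nonzero point -/
theorem killK (a b : ℤ) : Kill (hK (a := (a : K)) (b := (b : K))) (AdmK K)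
    (fun p _ => rdK K p a b) := by
  intro P hP0 S hS
  cases P with
  | zero => exact absurd rfl hP0
  | some x y hn =>
    obtain ⟨n, hn0, hnle, hint⟩ := exists_nat_le_mulHeight₁ x
    have hn1 : 0 < n := Nat.pos_of_ne_zero hn0
    have h1 : ∀ p ∈ S, p.Prime ∧ p ∣ n := by
      intro p hp
      obtain ⟨hpf, hA, hD, hr⟩ := hS p hp
      refine ⟨hpf.out, ?_⟩
      by_contra hc
      have hnp : ((n : ℕ) : ZMod p) ≠ 0 := by
        rw [Ne, ZMod.natCast_eq_zero_iff]
        exact hc
      have hx : x ∈ (vK K p hA).A := by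
        obtain ⟨z, hz⟩ : ∃ z : 𝓞 K, (z : K) = n * x := ⟨⟨n * x, hint⟩, rfl⟩
        have h2 := (vK_spec K p hA z).1
        have h3 : ((n : ℕ) : K)⁻¹ ∈ (vK K p hA).A := by
          apply (vK K p hA).inv_mem
          rw [(vK K p hA).r_nat]
          exact hnp
        have h4 : x = ((n : ℕ) : K)⁻¹ * z := by
          rw [hz, ← mul_assoc, inv_mul_cancel₀, one_mul]
          exact_mod_cast hn0
        rw [h4]
        exact (vK K p hA).A.mul_mem h3 h2
      obtain ⟨_, g, hg⟩ := (rdK_spec K p hA a b hD).2.1 x y hn hx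
      rw [hg] at hr
      cases hr
    have h2 := card_primes_dvd n hn1 S h1
    refine h2.trans ?_
    rw [hK_some]
    unfold logHeight₁
    apply Real.log_le_log (by exact_mod_cast hn1)
    exact hnle

end

open Classical in
/-- the supply of primes -/
theorem supK (K : Type) [Field K] [NumberField K] : ∃ cP : ℝ, 0 < cP ∧ ∃ TP : ℕ, ∀ X : ℕ, TP ≤ X →
    cP * (X / Real.log X) ≤
      (((Finset.range (X + 1)).filter (fun p => p.Prime ∧ AdmK K p)).card : ℝ) := by
  obtain ⟨τ, _, _, κ, hκ, Y, hY⟩ := spK K False False (fun h => h.elim) (fun h => h.elim)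
  refine ⟨κ, hκ, Y, ?_⟩
  intro X hX
  refine (hY X hX).trans ?_
  have h1 : DegP K False False X \ RoughP τ X ⊆
      (Finset.range (X + 1)).filter (fun p => p.Prime ∧ AdmK K p) := by
    intro p hp
    rw [Finset.mem_sdiff, DegP, Finset.mem_filter, Finset.mem_Icc] at hp
    rw [Finset.mem_filter, Finset.mem_range]
    exact ⟨by omega, hp.1.2.1, hp.1.2.2.2⟩
  exact_mod_cast Finset.card_le_card h1

end Pool.Agent.K9h5.N
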