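import Mathlib
import Pool.Agent.K9h5.U.Fib
import Pool.Agent.K9h5.T.NF

/-!
# Frobenius elements at primes of degree one of a number field
-/

set_option autoImplicit false
set_option linter.all false

namespace Pool.Agent.K9h5.N

open Polynomial Finset Pool.Agent.K9h5 Pool.Agent.K9h5.T Pool.Agent.K9h5.U NumberField

/-- **Frobenius elements realize the permutations of the roots modulo a prime of degree one.** -/
theorem frob_liftK (K : Type) [Field K] [NumberField K] (g : (𝓞 K)[X]) (hg : g.Monic) (n : ℕ)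
    (p : ℕ) [Fact p.Prime] (φ : 𝓞 K →+* ZMod p)
    (σ : Equiv.Perm (Fin n))
    (hσ : U.nf (AlgebraicClosure (ZMod p)) σ (g.map φ) ≠ 0)
    (L : Type) [Field L] [NumberField L] [Algebra K L] [IsGalois K L] (w : Fin n → L)
    (hw : g.map (algebraMap (𝓞 K) L) = ∏ j, (X - C (w j))) :
    ∃ (w' : Fin n → L) (τ : L ≃ₐ[K] L), Function.Injective w' ∧
      (∀ j, ∃ k, w' j = w k) ∧ ∀ j, τ (w' j) = w' (σ j) := by
  classical
  -- a place above p
  obtain ⟨ψ, hψ⟩ := ext_hom (A := 𝓞 K) (B := 𝓞 L)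
    ((algebraMap (ZMod p) (AlgebraicClosure (ZMod p))).comp φ) (by
    intro x hx
    rw [RingHom.mem_ker] at hx ⊢
    have h1 : x = 0 := (FaithfulSMul.algebraMap_injective (𝓞 K) (𝓞 L)) (by rw [hx, map_zero])
    rw [h1, map_zero])
  set Q : Ideal (𝓞 L) := RingHom.ker ψ with hQ
  haveI : Q.IsPrime := RingHom.ker_isPrime ψ
  have hpK : ((p : ℕ) : AlgebraicClosure (ZMod p)) = 0 := by
    have h1 : ((p : ℕ) : ZMod p) = 0 := ZMod.natCast_self p
    have h2 := congrArg (algebraMap (ZMod p) (AlgebraicClosure (ZMod p))) h1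
    rwa [map_natCast, map_zero] at h2
  have hQ0 : Q ≠ ⊥ := by
    intro h
    have h1 : ((p : ℕ) : 𝓞 L) ∈ Q := by
      rw [hQ, RingHom.mem_ker, map_natCast, hpK]
    rw [h, Ideal.mem_bot] at h1
    have h2 : (p : ℕ) = 0 := by exact_mod_cast h1
    exact (Fact.out : p.Prime).ne_zero h2
  haveI : Finite (𝓞 L ⧸ Q) := Ideal.finiteQuotientOfFreeOfNeBot Q hQ0
  have hφs : Function.Surjective φ := by
    intro z
    refine ⟨((z.val : ℕ) : 𝓞 K), ?_⟩
    rw [map_natCast, ZMod.natCast_zmod_val]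
  have hcard : Nat.card (𝓞 K ⧸ Q.under (𝓞 K)) = p := by
    have h1 : Q.under (𝓞 K) = RingHom.ker φ := by
      ext x
      rw [Ideal.under_def, Ideal.mem_comap, hQ, RingHom.mem_ker, hψ, RingHom.mem_ker,
        RingHom.comp_apply,
        map_eq_zero_iff _ (algebraMap (ZMod p) (AlgebraicClosure (ZMod p))).injective]
    rw [h1, Nat.card_congr (RingHom.quotientKerEquivOfSurjective hφs).toEquiv, Nat.card_zmod]
  haveI : Algebra.IsInvariant (𝓞 K) (𝓞 L) (𝓞 L ≃ₐ[𝓞 K] 𝓞 L) :=
    Algebra.isInvariant_of_isGalois' (𝓞 K) K L (𝓞 L)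
  haveI : Finite (𝓞 L ≃ₐ[𝓞 K] 𝓞 L) :=
    Finite.of_equiv _ (galRestrict (𝓞 K) K L (𝓞 L)).toEquiv
  obtain ⟨σQ, hσQ⟩ := IsArithFrobAt.exists_of_isInvariant (𝓞 K) (𝓞 L ≃ₐ[𝓞 K] 𝓞 L) Q
  have hfrob : ∀ x : 𝓞 L, ψ (σQ x) = (ψ x) ^ p := by
    intro x
    have h1 := hσQ x
    rw [hcard, hQ, RingHom.mem_ker, map_sub, map_pow, sub_eq_zero] at h1
    exact h1
  -- the integral roots
  have hwint : ∀ j, IsIntegral ℤ (w j) := by
    intro j
    have h1 : IsIntegral (𝓞 K) (w j) := by
      refine ⟨g, hg, ?_⟩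
      rw [← eval_map, hw, eval_prod, prod_eq_zero (mem_univ j)]
      simp
    exact isIntegral_trans (w j) h1
  have hb : ∀ j, ∃ b : 𝓞 L, algebraMap (𝓞 L) L b = w j := fun j =>
    ⟨⟨w j, hwint j⟩, rfl⟩
  choose b hb using hb
  have hinjO : Function.Injective (algebraMap (𝓞 L) L) := RingOfIntegers.coe_injective
  have hgO : g.map (algebraMap (𝓞 K) (𝓞 L)) = ∏ j, (X - C (b j)) := by
    apply Polynomial.map_injective _ hinjO
    rw [Polynomial.map_map, Polynomial.map_prod]
    have h1 : (algebraMap (𝓞 L) L).comp (algebraMap (𝓞 K) (𝓞 L)) = algebraMap (𝓞 K) L :=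
      (IsScalarTower.algebraMap_eq (𝓞 K) (𝓞 L) L).symm
    rw [h1, hw]
    refine prod_congr rfl fun j _ => ?_
    rw [Polynomial.map_sub, map_X, map_C, hb]
  have hgK : (g.map φ).map
      (algebraMap (ZMod p) (AlgebraicClosure (ZMod p))) = ∏ j, (X - C (ψ (b j))) := by
    rw [Polynomial.map_map]
    have h1 : (algebraMap (ZMod p) (AlgebraicClosure (ZMod p))).comp φ =
        ψ.comp (algebraMap (𝓞 K) (𝓞 L)) := by
      ext x
      rw [RingHom.comp_apply, RingHom.comp_apply, hψ, RingHom.comp_apply]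
    rw [h1, ← Polynomial.map_map, hgO, Polynomial.map_prod]
    refine prod_congr rfl fun j _ => ?_
    rw [Polynomial.map_sub, map_X, map_C]
  -- the ordering modulo p
  obtain ⟨s, hs⟩ : Nonempty {s : Fin n ↪ AlgebraicClosure (ZMod p) // ∀ j,
      ((g.map φ).map (algebraMap (ZMod p) (AlgebraicClosure (ZMod p)))).eval
        (s j) = 0 ∧ (s j) ^ Fintype.card (ZMod p) = s (σ j)} := by
    by_contra hc
    rw [not_nonempty_iff] at hc
    apply hσ
    unfold U.nf
    rw [Nat.card_eq_zero]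
    exact Or.inl hc
  have hπ : ∀ j, ∃ k, ψ (b k) = s j := by
    intro j
    have h1 := (hs j).1
    rw [hgK, eval_prod, Finset.prod_eq_zero_iff] at h1
    obtain ⟨k, _, hk⟩ := h1
    rw [eval_sub, eval_X, eval_C, sub_eq_zero] at hk
    exact ⟨k, hk.symm⟩
  choose π hπ using hπ
  have hπi : Function.Injective π := by
    intro j j' h
    apply s.injective
    rw [← hπ, ← hπ, h]
  have hπb : Function.Bijective π := Finite.injective_iff_bijective.1 hπi
  have hψb : Function.Injective (fun k => ψ (b k)) := by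
    intro k k' h
    obtain ⟨j, rfl⟩ := hπb.2 k
    obtain ⟨j', rfl⟩ := hπb.2 k'
    simp only [hπ] at h
    rw [s.injective h]
  have hbi : Function.Injective b := by
    intro k k' h
    apply hψb
    simp only [h]
  -- the action on the roots
  have hθ : ∀ k, ∃ k', σQ (b k) = b k' := by
    intro k
    have h1 : (g.map (algebraMap (𝓞 K) (𝓞 L))).eval (b k) = 0 := by
      rw [hgO, eval_prod, prod_eq_zero (mem_univ k)]
      simp
    have h2 : (g.map (algebraMap (𝓞 K) (𝓞 L))).eval (σQ (b k)) = 0 := by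
      have h3 := congrArg σQ h1
      rw [map_zero, eval_map, ← AlgEquiv.coe_ringEquiv, ← RingEquiv.coe_toRingHom,
        Polynomial.hom_eval₂] at h3
      rw [eval_map]
      have h4 : ((σQ : 𝓞 L ≃+* 𝓞 L) : 𝓞 L →+* 𝓞 L).comp (algebraMap (𝓞 K) (𝓞 L)) =
          algebraMap (𝓞 K) (𝓞 L) := by
        ext1 x
        rw [RingHom.comp_apply]
        exact σQ.commutes x
      rw [h4] at h3
      exact h3
    rw [hgO, eval_prod, Finset.prod_eq_zero_iff] at h2
    obtain ⟨k', _, hk⟩ := h2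
    rw [eval_sub, eval_X, eval_C, sub_eq_zero] at hk
    exact ⟨k', hk⟩
  choose θ hθ using hθ
  refine ⟨fun j => w (π j), (galRestrict (𝓞 K) K L (𝓞 L)).symm σQ, ?_, fun j => ⟨π j, rfl⟩, ?_⟩
  · intro j j' h
    apply hπi
    apply hbi
    apply hinjO
    rw [hb, hb]
    exact h
  · intro j
    have h1 : θ (π j) = π (σ j) := by
      apply hψb
      simp only
      rw [← hθ, hfrob, hπ, hπ]
      have h2 := (hs j).2
      rw [ZMod.card] at h2
      exact h2
    have h2 := algebraMap_galRestrict_apply (𝓞 K) ((galRestrict (𝓞 K) K L (𝓞 L)).symm σQ) (b (π j))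
    rw [MulEquiv.apply_symm_apply, hθ, h1, hb, hb] at h2
    exact h2.symm

end Pool.Agent.K9h5.N
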