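import Mathlib
import Pool.Agent.K9h5.N.FrobK
import Pool.Agent.K9h5.N.Rdk
import Pool.Agent.K9h5.U.Grp
import Pool.Agent.K9h5.U.Cor
import Pool.Agent.K9h5.T.Locn

/-!
# The Galois group of the specialized polynomial over a number field
-/

set_option autoImplicit false
set_option linter.all false

namespace Pool.Agent.K9h5.N

open Polynomial Finset Pool.Agent.K9h5 Pool.Agent.K9h5.T Pool.Agent.K9h5.U
  Pool.Agent.H901R3.MS WeierstrassCurve NumberField

/-- the Galois group contains an element which permutes the roots like `σ` -/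
def TypeK {K : Type} [Field K] {n : ℕ} (g : K[X]) (σ : Equiv.Perm (Fin n)) : Prop :=
  ∃ (w : Fin n → g.SplittingField) (τ : g.Gal),
    Function.Injective w ∧ (∀ j, aeval (w j) g = 0) ∧ ∀ j, τ (w j) = w (σ j)

/-- fractions at a prime ideal of a Dedekind domain -/
theorem frac_prime {R : Type} [CommRing R] [IsDomain R] [IsDedekindDomain R] (P : Ideal R)
    [hP : P.IsPrime] (hP0 : P ≠ ⊥) (n d : R) :
    ∃ x s : R, s ∉ P ∧ (n * x = d * s ∨ d * x = n * s) := by
  haveI : IsDiscreteValuationRing (Localization.AtPrime P) :=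
    IsLocalization.AtPrime.isDiscreteValuationRing_of_dedekind_domain R hP0 _
  have key : ∀ n d : R, algebraMap R (Localization.AtPrime P) n ∣
      algebraMap R (Localization.AtPrime P) d → ∃ x s : R, s ∉ P ∧ n * x = d * s := by
    intro n d h
    obtain ⟨c, hc⟩ := h
    obtain ⟨x, s, hs⟩ := IsLocalization.exists_mk'_eq P.primeCompl c
    refine ⟨x, s, s.2, ?_⟩
    apply IsLocalization.injective (Localization.AtPrime P) P.primeCompl_le_nonZeroDivisors
    rw [map_mul, map_mul, hc, ← hs, mul_assoc, IsLocalization.mk'_spec]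
  rcases ValuationRing.dvd_total (algebraMap R (Localization.AtPrime P) n)
    (algebraMap R (Localization.AtPrime P) d) with h | h
  · obtain ⟨x, s, hs, h1⟩ := key n d h
    exact ⟨x, s, hs, Or.inl h1⟩
  · obtain ⟨x, s, hs, h1⟩ := key d n h
    exact ⟨x, s, hs, Or.inr h1⟩

theorem vK_spec' (K : Type) [Field K] [NumberField K] (p : ℕ) [Fact p.Prime] (h : AdmK K p)
    (x : 𝓞 K) : algebraMap (𝓞 K) K x ∈ (vK K p h).A ∧
      (vK K p h).r (algebraMap (𝓞 K) K x) = Classical.choice h x := vK_spec K p h x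

/-- denominators of the elements of a place of a number field -/
theorem den_placeK (K : Type) [Field K] [NumberField K] (p : ℕ) [Fact p.Prime] (h : AdmK K p)
    (c : K) (hc : c ∈ (vK K p h).A) :
    ∃ D z : 𝓞 K, Classical.choice h D ≠ 0 ∧
      algebraMap (𝓞 K) K z = algebraMap (𝓞 K) K D * c := by
  obtain ⟨n, d, hd, hnd⟩ := IsFractionRing.div_surjective (A := 𝓞 K) c
  set φ := Classical.choice h with hφ
  haveI : (RingHom.ker φ).IsPrime := RingHom.ker_isPrime φ
  have h0 : RingHom.ker φ ≠ ⊥ := by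
    intro h1
    have h2 : ((p : ℕ) : 𝓞 K) ∈ RingHom.ker φ := by
      rw [RingHom.mem_ker, map_natCast, ZMod.natCast_self]
    rw [h1, Ideal.mem_bot] at h2
    have h3 : (p : ℕ) = 0 := by exact_mod_cast h2
    exact (Fact.out : p.Prime).ne_zero h3
  have hd0 : algebraMap (𝓞 K) K d ≠ 0 := by
    intro h1
    exact (mem_nonZeroDivisors_iff_ne_zero.1 hd) (RingOfIntegers.coe_injective (by rw [h1, map_zero]))
  obtain ⟨x, s, hs, h1⟩ := frac_prime (RingHom.ker φ) h0 n d
  rw [RingHom.mem_ker] at hs
  have hcd : algebraMap (𝓞 K) K d * c = algebraMap (𝓞 K) K n := by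
    rw [← hnd]
    field_simp
  rcases h1 with h1 | h1
  · -- n x = d s, c x = s
    have h2 : algebraMap (𝓞 K) K x * c = algebraMap (𝓞 K) K s := by
      have e1 := congrArg (algebraMap (𝓞 K) K) h1
      simp only [map_mul] at e1
      apply mul_left_cancel₀ hd0
      rw [← e1, ← hcd]
      ring
    refine ⟨x, s, ?_, h2.symm⟩
    intro hx
    apply hs
    have e2 := congrArg (vK K p h).r h2
    rw [(vK K p h).r_mul (vK_spec' K p h x).1 hc, (vK_spec' K p h x).2, (vK_spec' K p h s).2,
      ← hφ, hx, zero_mul] at e2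
    exact e2.symm
  · refine ⟨s, x, hs, ?_⟩
    have e1 := congrArg (algebraMap (𝓞 K) K) h1
    simp only [map_mul] at e1
    apply mul_left_cancel₀ hd0
    rw [e1, ← hcd]
    ring

/-- a common denominator -/
theorem common_denK (K : Type) [Field K] [NumberField K] (p : ℕ) [Fact p.Prime] (h : AdmK K p)
    {n : ℕ} (c : Fin n → K) (hc : ∀ k, c k ∈ (vK K p h).A) :
    ∃ (D : 𝓞 K) (z : Fin n → 𝓞 K), Classical.choice h D ≠ 0 ∧
      (∀ k : Fin n, algebraMap (𝓞 K) K (z k) = (algebraMap (𝓞 K) K D) ^ ((k : ℕ) + 1) * c k) ∧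
      ∀ k : Fin n, Classical.choice h (z k) =
        (Classical.choice h D) ^ ((k : ℕ) + 1) * (vK K p h).r (c k) := by
  classical
  choose E y hE hy using fun k => den_placeK K p h (c k) (hc k)
  set D : 𝓞 K := ∏ k, E k with hD
  have hDp : Classical.choice h D ≠ 0 := by
    rw [hD, map_prod]
    exact prod_ne_zero_iff.2 fun k _ => hE k
  have h1 : ∀ k : Fin n, ∃ z : 𝓞 K, algebraMap (𝓞 K) K z =
      (algebraMap (𝓞 K) K D) ^ ((k : ℕ) + 1) * c k := by
    intro k
    obtain ⟨e, he⟩ : E k ∣ D := dvd_prod_of_mem E (mem_univ k)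
    refine ⟨D ^ (k : ℕ) * (e * y k), ?_⟩
    rw [map_mul, map_mul, map_pow, hy, pow_succ, mul_assoc]
    congr 1
    have h2 : algebraMap (𝓞 K) K D = algebraMap (𝓞 K) K (E k) * algebraMap (𝓞 K) K e := by
      rw [he, map_mul]
    rw [h2]
    ring
  choose z hz using h1
  refine ⟨D, z, hDp, hz, ?_⟩
  intro k
  have h2 := congrArg (vK K p h).r (hz k)
  rw [(vK K p h).r_mul ((vK K p h).A.pow_mem (vK_spec' K p h D).1 _) (hc k),
    (vK K p h).r_pow (vK_spec' K p h D).1, (vK_spec' K p h D).2, (vK_spec' K p h _).2] at h2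
  exact h2

/-- **The local condition.** -/
theorem lift_SK (K : Type) [Field K] [NumberField K] [DecidableEq K]
    {r n : ℕ} (a b : Fin r → ℤ) (F : Fin n → MvPolynomial (Fin r × Fin 3) ℤ)
    (j : Fin r) (d : Fin r → ℕ)
    (hF : ∀ k i, (F k).IsWeightedHomogeneous (wtj i) (((k : ℕ) + 1) * d i))
    (p : ℕ) [Fact p.Prime] (hA : AdmK K p) (hD : ∀ i, Disc (a i : ZMod p) (b i : ZMod p))
    (P : ∀ i, Pt (a i : K) (b i : K)) (σ : Equiv.Perm (Fin n))
    (hσ : ¬ TypeK (pol (fun k => evF (F k) (fun i => rep (P i)))) σ) :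
    fS σ (fun k => Fm a b (F k) j p (fun i => rdK K p (a i) (b i) (P i)))
      (rdK K p (a j) (b j) (P j)) = 0 := by
  classical
  by_contra hne
  apply hσ
  choose u hu0 huA using fun i => (rdK_spec K p hA (a i) (b i) (hD i)).2.2 (P i)
  set s : K := ∏ i, u i ^ d i with hs
  have hs0 : s ≠ 0 := by
    rw [hs]
    exact prod_ne_zero_iff.2 fun i _ => pow_ne_zero _ (hu0 i)
  set c : Fin n → K := fun k => evF (F k) (fun i => rep (P i)) with hc
  have h1 : ∀ k : Fin n, evF (F k) (fun i k => u i * rep (P i) k) = s ^ ((k : ℕ) + 1) * c k := by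
    intro k
    rw [evF_scale (F k) (fun i => ((k : ℕ) + 1) * d i) (hF k) u (fun i => rep (P i)), hs,
      ← prod_pow]
    congr 1
    refine prod_congr rfl fun i _ => ?_
    rw [← pow_mul, mul_comm]
  have h2 : ∀ k : Fin n, s ^ ((k : ℕ) + 1) * c k ∈ (vK K p hA).A := fun k => by
    rw [← h1]
    exact (evF_place (vK K p hA) (F k) (fun i k => u i * rep (P i) k) (fun i k => (huA i k).1)).1
  have h3 : ∀ k : Fin n, (vK K p hA).r (s ^ ((k : ℕ) + 1) * c k) =
      Gv (Fm a b (F k) j p (fun i => rdK K p (a i) (b i) (P i))) (rdK K p (a j) (b j) (P j)) := by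
    intro k
    rw [← h1, (evF_place (vK K p hA) (F k) (fun i k => u i * rep (P i) k)
      (fun i k => (huA i k).1)).2]
    unfold Gv Fm
    rw [← MvPolynomial.eval₂_id, specF_eval]
    congr 1
    funext i k
    rw [(huA i k).2]
    split_ifs with hi
    · subst hi; rfl
    · rfl
  obtain ⟨D, z, hDp, hz, hzp⟩ := common_denK K p hA _ h2
  have hD0 : algebraMap (𝓞 K) K D ≠ 0 := by
    intro h
    apply hDp
    have h4 : D = 0 := RingOfIntegers.coe_injective (by rw [h, map_zero])
    rw [h4, map_zero]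
  -- the integral polynomial
  set g : (𝓞 K)[X] := pol z with hg
  have hgp : g.map (Classical.choice hA) =
      pol (fun k : Fin n => (Classical.choice hA D) ^ ((k : ℕ) + 1) *
      Gv (Fm a b (F k) j p (fun i => rdK K p (a i) (b i) (P i))) (rdK K p (a j) (b j) (P j))) := by
    rw [hg, pol_map]
    congr 1
    funext k
    rw [hzp, h3]
  have hnf : U.nf (AlgebraicClosure (ZMod p)) σ (g.map (Classical.choice hA)) ≠ 0 := by
    rw [hgp, nf_scale _ _ _ hDp]
    exact hne
  -- the splitting field
  set G : K[X] := pol c with hG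
  haveI : FiniteDimensional K G.SplittingField :=
    IsSplittingField.finiteDimensional G.SplittingField G
  haveI : CharZero G.SplittingField := charZero_of_injective_algebraMap
    (algebraMap K G.SplittingField).injective
  haveI : NumberField G.SplittingField :=
    { to_charZero := inferInstance,
      to_finiteDimensional := FiniteDimensional.trans ℚ K G.SplittingField }
  haveI : Normal K G.SplittingField := Normal.of_isSplittingField G
  haveI : IsGalois K G.SplittingField := ⟨⟩
  have hsp : (G.map (algebraMap K G.SplittingField)).Splits :=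
    IsSplittingField.splits G.SplittingField G
  obtain ⟨w, hw⟩ : ∃ w : Fin n → G.SplittingField, G.map (algebraMap K G.SplittingField) =
      ∏ j, (X - C (w j)) := by
    have e1 := hsp.eq_prod_roots_of_monic ((pol_monic c).map _)
    have e2 : (G.map (algebraMap K G.SplittingField)).roots.card = n := by
      rw [← hsp.natDegree_eq_card_roots, (pol_monic c).natDegree_map, pol_natDegree]
    obtain ⟨l, hl⟩ := Quot.exists_rep (G.map (algebraMap K G.SplittingField)).roots
    have hl' : l.length = n := by rw [← e2, ← hl]; rfl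
    refine ⟨fun j => l.get (j.cast hl'.symm), ?_⟩
    have e3 : (Multiset.map (fun a => X - C a) (G.map (algebraMap K G.SplittingField)).roots).prod =
        (l.map (fun a => X - C a)).prod := by
      rw [← hl]
      rfl
    rw [e3] at e1
    conv_lhs => rw [e1]
    rw [← List.prod_ofFn]
    congr 1
    apply List.ext_getElem
    · simp [hl']
    · intro i h1 h2
      simp
  set ι := algebraMap K G.SplittingField with hι
  have hDs : ι (algebraMap (𝓞 K) K D * s) ≠ 0 := by
    rw [Ne, map_eq_zero_iff _ ι.injective]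
    exact mul_ne_zero hD0 hs0
  have hgL : g.map (algebraMap (𝓞 K) G.SplittingField) = ∏ j, (X - C (ι (algebraMap (𝓞 K) K D * s) * w j)) := by
    have e1 : pol (fun k => ι (c k)) = ∏ j, (X - C (w j)) := by
      refine Eq.trans ?_ hw
      exact (pol_map _ _).symm
    rw [← scale_split _ _ _ hDs e1, hg, pol_map]
    congr 1
    funext k
    have e2 : algebraMap (𝓞 K) G.SplittingField (z k) = ι (algebraMap (𝓞 K) K (z k)) :=
      IsScalarTower.algebraMap_apply (𝓞 K) K G.SplittingField (z k)
    rw [e2, hz, ← map_pow ι, ← map_mul ι, mul_pow]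
    congr 1
    ring
  obtain ⟨w', τ, hw'i, hw'w, hτ⟩ := frob_liftK K g (pol_monic z) n p (Classical.choice hA) σ hnf
    G.SplittingField _ hgL
  refine ⟨fun j => (ι (algebraMap (𝓞 K) K D * s))⁻¹ * w' j, τ, ?_, ?_, ?_⟩
  · intro j j' h
    exact hw'i (mul_left_cancel₀ (inv_ne_zero hDs) h)
  · intro j
    obtain ⟨k, hk⟩ := hw'w j
    simp only
    rw [hk, ← mul_assoc, inv_mul_cancel₀ hDs, one_mul, aeval_def, ← eval_map]
    refine Eq.trans (congrArg (eval (w k)) hw) ?_
    rw [eval_prod, prod_eq_zero (mem_univ k)]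
    simp
  · intro j
    simp only
    have e1 : τ (ι (algebraMap (𝓞 K) K D * s))⁻¹ = (ι (algebraMap (𝓞 K) K D * s))⁻¹ := by
      rw [map_inv₀]
      congr 1
      exact τ.commutes _
    have e2 : τ (w' j) = w' (σ j) := hτ j
    have e3 : τ ((ι (algebraMap (𝓞 K) K D * s))⁻¹ * w' j) = (ι (algebraMap (𝓞 K) K D * s))⁻¹ * w' (σ j) := by
      rw [map_mul, e1, e2]
    exact e3

/-- **All types of permutations give the symmetric group.** -/
theorem gal_of_typesK {K : Type} [Field K] {n : ℕ} (g : K[X]) (hg : g.Monic)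
    (hn : g.natDegree = n)
    (h : ∀ σ : Equiv.Perm (Fin n), TypeK g σ) : Nat.card g.Gal = Nat.factorial n := by
  classical
  obtain ⟨w, -, hwi, hwr, -⟩ := h 1
  have hg0 : g ≠ 0 := hg.ne_zero
  -- all the roots
  have hall : ∀ z : g.SplittingField, aeval z g = 0 → ∃ j, w j = z := by
    intro z hz
    have h1 : (univ.image w) ⊆ (g.map (algebraMap K g.SplittingField)).roots.toFinset := by
      intro y hy
      obtain ⟨j, _, rfl⟩ := mem_image.1 hy
      rw [Multiset.mem_toFinset, mem_roots ((hg.map _).ne_zero), IsRoot.def, eval_map,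
        ← aeval_def]
      exact hwr j
    have h2 : (g.map (algebraMap K g.SplittingField)).roots.toFinset.card ≤
        (univ.image w).card := by
      rw [card_image_of_injective _ hwi, card_univ, Fintype.card_fin]
      refine (Multiset.toFinset_card_le _).trans ((card_roots' _).trans ?_)
      rw [hg.natDegree_map, hn]
    have h3 := eq_of_subset_of_card_le h1 h2
    have h4 : z ∈ univ.image w := by
      rw [h3, Multiset.mem_toFinset, mem_roots ((hg.map _).ne_zero), IsRoot.def, eval_map,
        ← aeval_def]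
      exact hz
    obtain ⟨j, _, hj⟩ := mem_image.1 h4
    exact ⟨j, hj⟩
  have hact : ∀ (τ : g.Gal) (j : Fin n), ∃ k, w k = τ (w j) := by
    intro τ j
    apply hall
    have e1 := aeval_algHom_apply (AlgEquiv.toAlgHom τ) (w j) g
    rw [hwr j, map_zero] at e1
    exact e1
  choose θ hθ using hact
  -- the homomorphism
  have hθ1 : ∀ τ τ' j, θ (τ * τ') j = θ τ (θ τ' j) := by
    intro τ τ' j
    apply hwi
    rw [hθ, hθ, hθ]
    rfl
  have hθ0 : ∀ j, θ 1 j = j := by
    intro j
    apply hwi
    rw [hθ]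
    rfl
  let f : g.Gal →* Equiv.Perm (Fin n) :=
    { toFun := fun τ => ⟨θ τ, θ τ⁻¹, fun j => by rw [← hθ1, inv_mul_cancel, hθ0],
        fun j => by rw [← hθ1, mul_inv_cancel, hθ0]⟩
      map_one' := Equiv.ext fun j => hθ0 j
      map_mul' := fun τ τ' => Equiv.ext fun j => hθ1 τ τ' j }
  have hf : ∀ τ j, w (f τ j) = τ (w j) := fun τ j => hθ τ j
  have hfi : Function.Injective f := by
    intro τ τ' h1
    apply Gal.ext
    intro x hx
    obtain ⟨j, rfl⟩ := hall x ((mem_rootSet.1 hx).2)
    have h2 := hf τ j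
    rw [h1, hf] at h2
    exact h2.symm
  have hft : f.range = ⊤ := by
    apply top_of_conj
    intro σ
    obtain ⟨w', t, hw'i, hw'r, hτ⟩ := h σ
    choose κ hκ using fun j => hall (w' j) (hw'r j)
    have hκi : Function.Injective κ := by
      intro j j' h1
      apply hw'i
      rw [← hκ, ← hκ, h1]
    set x : Equiv.Perm (Fin n) := Equiv.ofBijective κ (Finite.injective_iff_bijective.1 hκi) with hx
    refine ⟨x⁻¹, ?_⟩
    rw [inv_inv, MonoidHom.mem_range]
    refine ⟨t, ?_⟩
    have h1 : f t * x = x * σ := by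
      apply Equiv.ext
      intro j
      rw [Equiv.Perm.mul_apply, Equiv.Perm.mul_apply]
      apply hwi
      rw [hf]
      show t (w (κ j)) = w (κ (σ j))
      rw [hκ, hκ, hτ]
    rw [← h1, mul_assoc, mul_inv_cancel, mul_one]
  have hbij : Function.Bijective f := ⟨hfi, MonoidHom.range_eq_top.1 hft⟩
  have h1 := Nat.card_congr (Equiv.ofBijective f hbij)
  rw [Nat.card_eq_fintype_card (α := Equiv.Perm (Fin n)), Fintype.card_perm, Fintype.card_fin] at h1
  exact h1

end Pool.Agent.K9h5.N
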