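import Mathlib
import Pool.Agent.K9h5.N.Hk
import Pool.Agent.K9h5.N.Gen1
import Pool.Agent.K9h5.Pf

/-!
# The rank grows in extensions of the number field
-/

set_option autoImplicit false
set_option linter.all false

namespace Pool.Agent.K9h5.N

open Pool.Agent.H901R3.MS WeierstrassCurve Height Pool.Agent.K9h5 NumberField Filter

section

variable {K : Type} [Field K] [NumberField K]

/-- the duplication map on the line -/
noncomputable def dup (a b x : K) : K :=
  (x ^ 4 - 2 * a * x ^ 2 - 8 * b * x + a ^ 2) / (4 * (x ^ 3 + a * x + b))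

theorem dup_height (a b : K) (hD : Disc a b) : ∃ C : ℝ, ∀ x : K, C < logHeight₁ x →
    x ^ 3 + a * x + b ≠ 0 ∧ logHeight₁ x < logHeight₁ (dup a b x) := by
  have := cv_ell hD
  obtain ⟨C1, hC1⟩ := abs_logHeight_sym2_sub_le K
  obtain ⟨C2, hC2⟩ := WeierstrassCurve.abs_logHeight_addSubMap_sub_two_mul_logHeight_le (CV a b)
  refine ⟨(2 * C1 + C2) / 3, ?_⟩
  intro x hx
  have h0 : (0 : ℝ) ≤ logHeight₁ x := by
    rw [logHeight₁_eq_logHeight]
    exact logHeight_nonneg _
  have hne : ![x, 1] ≠ 0 := by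
    intro h
    have := congrFun h 1
    simp at this
  have h1 := hC1 hne hne
  rw [← logHeight₁_eq_logHeight] at h1
  have h2 := hC2 ![x * x, x * 1 + 1 * x, 1 * 1]
  rw [ev_addSub] at h2
  have e1 : (x * x) ^ 2 - 2 * a * (x * x) * (1 * 1) - 4 * b * (x * 1 + 1 * x) * (1 * 1) +
      a ^ 2 * (1 * 1) ^ 2 = x ^ 4 - 2 * a * x ^ 2 - 8 * b * x + a ^ 2 := by ring
  have e2 : 2 * (x * 1 + 1 * x) * (x * x) + 2 * a * (x * 1 + 1 * x) * (1 * 1) +
      4 * b * (1 * 1) ^ 2 = 4 * (x ^ 3 + a * x + b) := by ring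
  have e3 : (x * 1 + 1 * x) ^ 2 - 4 * (x * x) * (1 * 1) = 0 := by ring
  rw [e1, e2, e3, logHeight_cons_cons_cons_zero] at h2
  rw [abs_le] at h1 h2
  have h3 : 4 * logHeight₁ x - (2 * C1 + C2) ≤
      logHeight ![x ^ 4 - 2 * a * x ^ 2 - 8 * b * x + a ^ 2, 4 * (x ^ 3 + a * x + b)] := by
    linarith [h1.1, h1.2, h2.1, h2.2]
  constructor
  · intro h
    rw [h, mul_zero, logHeight_cons_cons_zero, logHeight_eq_zero_of_subsingleton] at h3
    linarith
  · rw [dup, logHeight₁_div_eq_logHeight]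
    linarith

/-- points with rational coordinate `x` of large height are not torsion -/
theorem nontors (a b : K) (hD : Disc a b) : ∃ C : ℝ, ∀ (L : Type) [Field L] [DecidableEq L]
    [CharZero L] (ι : K →+* L) (x : K) (y : L)
    (h : (CV (ι a) (ι b)).toAffine.Nonsingular (ι x) y), C < logHeight₁ x →
    ∀ n : ℕ, n • (Affine.Point.some (ι x) y h : Pt (ι a) (ι b)) = 0 → n = 0 := by
  obtain ⟨C, hC⟩ := dup_height a b hD
  refine ⟨C, ?_⟩
  intro L _ _ _ ι x y h hx n hn
  by_contra hn0
  set P : Pt (ι a) (ι b) := Affine.Point.some (ι x) y h with hP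
  have h2 : (2 : L) ≠ 0 := two_ne_zero
  have key : ∀ i : ℕ, C < logHeight₁ ((dup a b)^[i] x) ∧
      ∃ (z : L) (g : (CV (ι a) (ι b)).toAffine.Nonsingular (ι ((dup a b)^[i] x)) z),
        (2 ^ i) • P = Affine.Point.some _ _ g := by
    intro i
    induction i with
    | zero => exact ⟨hx, y, h, by rw [pow_zero, one_smul]; rfl⟩
    | succ i ih =>
      obtain ⟨hi, z, g, hg⟩ := ih
      set w := (dup a b)^[i] x with hw
      obtain ⟨hne, hlt⟩ := hC w hi
      have hw' : (dup a b)^[i + 1] x = dup a b w := by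
        rw [Function.iterate_succ_apply', hw]
      have hzz : z ^ 2 = ι (w ^ 3 + a * w + b) := by
        have h1 : z ^ 2 = (ι w) ^ 3 + ι a * ι w + ι b := eqn_of g
        rw [h1]
        simp
      have hz0 : z ≠ 0 := by
        intro hz
        apply hne
        apply ι.injective
        rw [← hzz, hz, map_zero]
        simp
      have hdbl := xRep_dbl h2 g hz0
      have hsm : (2 ^ (i + 1)) • P = Affine.Point.some _ _ g + Affine.Point.some _ _ g := by
        rw [pow_succ, mul_comm, mul_smul, hg, two_smul]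
      have hval : (ι w ^ 4 - 2 * ι a * ι w ^ 2 - 8 * ι b * ι w + ι a ^ 2) / (4 * z ^ 2) =
          ι (dup a b w) := by
        rw [hzz, dup]
        simp only [map_div₀, map_add, map_sub, map_mul, map_pow, map_ofNat]
      rw [hval] at hdbl
      rw [hw']
      refine ⟨hi.trans hlt, ?_⟩
      rw [hsm]
      cases hQ : (Affine.Point.some _ _ g + Affine.Point.some _ _ g : Pt (ι a) (ι b)) with
      | zero =>
        rw [hQ] at hdbl
        have := congrFun hdbl 1
        have e0 : (Affine.Point.zero : Pt (ι a) (ι b)).xRep = ![1, 0] := Affine.Point.xRep_zero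
        rw [e0] at this
        simp at this
      | some u v k =>
        rw [hQ, Affine.Point.xRep_some] at hdbl
        have := congrFun hdbl 0
        simp only [Matrix.cons_val_zero] at this
        subst this
        exact ⟨v, k, rfl⟩
  have hmono : StrictMono (fun i : ℕ => logHeight₁ ((dup a b)^[i] x)) := by
    apply strictMono_nat_of_lt_succ
    intro i
    rw [Function.iterate_succ_apply']
    exact (hC _ (key i).1).2
  have hinj : Function.Injective (fun i : ℕ => (2 ^ i) • P) := by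
    intro i i' hii
    obtain ⟨_, z, g, hg⟩ := key i
    obtain ⟨_, z', g', hg'⟩ := key i'
    simp only at hii
    rw [hg, hg', Affine.Point.some.injEq] at hii
    have := ι.injective hii.1
    apply hmono.injective
    simp only [this]
  have hfin : (Set.range (fun i : ℕ => (2 ^ i) • P)).Finite := by
    apply Set.Finite.subset ((Finset.range n).image (fun m => m • P)).finite_toSet
    rintro _ ⟨i, rfl⟩
    rw [Finset.mem_coe, Finset.mem_image]
    refine ⟨2 ^ i % n, Finset.mem_range.2 (Nat.mod_lt _ (Nat.pos_of_ne_zero hn0)), ?_⟩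
    simp only
    conv_rhs => rw [← Nat.mod_add_div (2 ^ i) n]
    rw [add_smul, mul_comm, mul_smul, hn, smul_zero, add_zero]
  exact Set.infinite_range_of_injective hinj hfin

theorem height_nat (k : ℕ) : logHeight₁ (k : K) ≤ (totalWeight K : ℝ) * Real.log k := by
  have h1 := logHeight₁_sum_le (Finset.range k) (fun _ => (1 : K))
  rw [Finset.sum_const, Finset.card_range, nsmul_eq_mul, mul_one] at h1
  simpa using h1

theorem height_nat_large (C : ℝ) : ∃ k₀ : ℕ, ∀ k : ℕ, k₀ ≤ k → C < logHeight₁ (k : K) := by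
  have hfin := NumberField.finite_setOfPred_logHeight₁_le (K := K) C
  have h1 : {k : ℕ | logHeight₁ (k : K) ≤ C}.Finite :=
    hfin.preimage (Nat.cast_injective.injOn)
  obtain ⟨k₀, hk₀⟩ := h1.bddAbove
  refine ⟨k₀ + 1, fun k hk => ?_⟩
  by_contra h
  have := hk₀ (Set.mem_setOf_eq ▸ not_lt.1 h : k ∈ {k : ℕ | logHeight₁ (k : K) ≤ C})
  omega

/-- values of the cubic which are not squares -/
theorem nonsq [DecidableEq K] (a b : K) (hD : Disc a b) (C : ℝ) :
    ∃ k : ℕ, C < logHeight₁ (k : K) ∧ ¬ ∃ y : K, y ^ 2 = (k : K) ^ 3 + a * k + b := by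
  classical
  by_contra hcon
  push Not at hcon
  obtain ⟨k₀, hk₀⟩ := height_nat_large (K := K) C
  have hy : ∀ k : ℕ, ∃ y : K, k₀ ≤ k → y ^ 2 = (k : K) ^ 3 + a * k + b := by
    intro k
    by_cases hk : k₀ ≤ k
    · obtain ⟨y, hy⟩ := hcon k (hk₀ k hk)
      exact ⟨y, fun _ => hy⟩
    · exact ⟨0, fun h => absurd h hk⟩
  choose y hy using hy
  have hns : ∀ k : ℕ, k₀ ≤ k → (CV a b).toAffine.Nonsingular (k : K) (y k) := fun k hk =>
    (nonsingular_iff hD).2 (hy k hk)
  obtain ⟨e₀, c, C', ⟨hc, _, _⟩, hC', hcov⟩ := coverG (t_M1K K a b hD) (hK (a := a) (b := b)) hK_nonneg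
    northK (canonK hD) 0 (Nat.zero_le _)
  set ρ := Module.finrank ℤ (Pt a b) with hρ
  rw [Nat.sub_zero] at hcov
  set w : ℝ := (totalWeight K : ℝ) with hw
  have hw0 : 0 ≤ w := Nat.cast_nonneg _
  have hc0 : 0 ≤ c := by linarith
  -- the bound
  have hbound : ∀ m : ℕ, k₀ ≤ 2 ^ m → ((2 : ℝ) ^ m) ≤
      C' * ((2 * c * (w + 1) + 3) * (m + 1)) ^ ρ := by
    intro m hm
    set T₁ : ℕ := ⌈c * √(w * (m + 1) + 1)⌉₊ with hT₁
    obtain ⟨Sh, hSh, hcovm⟩ := hcov T₁
    have h1 : (2 : ℝ) ^ m ≤ Sh.card := by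
      have h2 : (Finset.Ico (2 ^ m) (2 ^ (m + 1)) : Finset ℕ).card ≤ Sh.card := by
        refine Finset.card_le_card_of_injOn (fun k => if hk : k₀ ≤ k then
          (Affine.Point.some _ _ (hns k hk) : Pt a b) else 0) ?_ ?_
        · intro k hk
          rw [Finset.mem_coe, Finset.mem_Ico] at hk
          have hkk : k₀ ≤ k := hm.trans hk.1
          rw [Finset.mem_coe]
          simp only [dif_pos hkk]
          obtain ⟨σ, hσ, n, _, hn⟩ := hcovm (Affine.Point.some _ _ (hns k hkk) : Pt a b) (by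
            rw [hK_some]
            refine le_trans ?_ (Nat.le_ceil _)
            apply mul_le_mul_of_nonneg_left _ hc0
            apply Real.sqrt_le_sqrt
            have h3 : Real.log k ≤ m + 1 := by
              have hk0 : (0 : ℝ) < k := by
                have : 0 < 2 ^ m := by positivity
                exact_mod_cast lt_of_lt_of_le this hk.1
              have h4 : (k : ℝ) ≤ 2 ^ (m + 1) := by exact_mod_cast hk.2.le
              calc Real.log k ≤ Real.log (2 ^ (m + 1)) := Real.log_le_log hk0 h4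
                _ = (m + 1) * Real.log 2 := by rw [Real.log_pow]; push_cast; ring
                _ ≤ (m + 1) * 1 := by
                  apply mul_le_mul_of_nonneg_left _ (by positivity)
                  linarith [Real.log_two_lt_d9]
                _ = m + 1 := mul_one _
            have h5 := height_nat (K := K) k
            have h6 : w * Real.log k ≤ w * (m + 1) := mul_le_mul_of_nonneg_left h3 hw0
            linarith)
          rw [hn, Finset.univ_eq_empty, Finset.sum_empty, add_zero]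
          exact hσ
        · intro k hk k' hk' hkk
          rw [Finset.mem_coe, Finset.mem_Ico] at hk hk'
          have h3 : k₀ ≤ k := hm.trans hk.1
          have h4 : k₀ ≤ k' := hm.trans hk'.1
          simp only [dif_pos h3, dif_pos h4] at hkk
          rw [Affine.Point.some.injEq] at hkk
          exact_mod_cast hkk.1
      rw [Nat.card_Ico, pow_succ] at h2
      have h3 : 2 ^ m ≤ Sh.card := by omega
      exact_mod_cast h3
    refine h1.trans (hSh.trans ?_)
    apply mul_le_mul_of_nonneg_left _ hC'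
    apply pow_le_pow_left₀ (by positivity)
    push_cast
    have h2 : (T₁ : ℝ) ≤ c * √(w * (m + 1) + 1) + 1 := (Nat.ceil_lt_add_one (by positivity)).le
    have h3 : √(w * (m + 1) + 1) ≤ (w + 1) * (m + 1) := by
      have hm0 : (0 : ℝ) ≤ m := Nat.cast_nonneg m
      have h4 : w * (m + 1) + 1 ≤ (w + 1) * (m + 1) := by nlinarith
      have h5 : 1 ≤ (w + 1) * (m + 1) := by nlinarith
      rw [Real.sqrt_le_left (by linarith)]
      nlinarith
    have h4 : c * √(w * (m + 1) + 1) ≤ c * ((w + 1) * (m + 1)) := mul_le_mul_of_nonneg_left h3 hc0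
    have hm0 : (0 : ℝ) ≤ m := Nat.cast_nonneg m
    nlinarith
  -- the growth
  have hlo := (isLittleO_pow_const_const_pow_of_one_lt (R := ℝ) ρ (r := 2) (by norm_num))
  set Q : ℝ := C' * (2 * (2 * c * (w + 1) + 3)) ^ ρ with hQ
  have hQ0 : 0 ≤ Q := by positivity
  have hev := hlo.def (c := 1 / (2 * (Q + 1))) (by positivity)
  obtain ⟨m₁, hm₁⟩ := eventually_atTop.1 hev
  set m := max (max m₁ k₀) 1 with hm
  have h1 := hm₁ m ((le_max_left _ _).trans (le_max_left _ _))
  have hk : k₀ ≤ 2 ^ m :=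
    ((le_max_right m₁ k₀).trans (le_max_left _ 1)).trans Nat.lt_two_pow_self.le
  have h2 := hbound m hk
  have hm1 : (1 : ℝ) ≤ m := by exact_mod_cast (le_max_right _ _ : 1 ≤ m)
  have h3 : C' * ((2 * c * (w + 1) + 3) * (m + 1)) ^ ρ ≤ Q * (m : ℝ) ^ ρ := by
    have hq : 0 ≤ 2 * c * (w + 1) + 3 := by positivity
    have e1 : Q * (m : ℝ) ^ ρ = C' * (2 * (2 * c * (w + 1) + 3) * m) ^ ρ := by
      rw [hQ, mul_pow _ (m : ℝ) ρ]
      ring
    rw [e1]
    apply mul_le_mul_of_nonneg_left _ hC'
    apply pow_le_pow_left₀ (by positivity)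
    generalize 2 * c * (w + 1) + 3 = q at hq
    nlinarith
  rw [Real.norm_of_nonneg (by positivity), Real.norm_of_nonneg (by positivity)] at h1
  have h4 : Q * (m : ℝ) ^ ρ ≤ Q * (1 / (2 * (Q + 1)) * 2 ^ m) := mul_le_mul_of_nonneg_left h1 hQ0
  have h5 : Q * (1 / (2 * (Q + 1)) * 2 ^ m) ≤ 1 / 2 * 2 ^ m := by
    have : Q * (1 / (2 * (Q + 1))) ≤ 1 / 2 := by
      rw [mul_one_div, div_le_div_iff₀ (by positivity) (by norm_num)]
      linarith
    calc Q * (1 / (2 * (Q + 1)) * 2 ^ m) = Q * (1 / (2 * (Q + 1))) * 2 ^ m := by ring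
      _ ≤ 1 / 2 * 2 ^ m := mul_le_mul_of_nonneg_right this (by positivity)
  have h6 : (0 : ℝ) < 2 ^ m := by positivity
  linarith

end

end Pool.Agent.K9h5.N
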