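import Mathlib
import Pool.Agent.K9h5.N.Rank

/-!
# The rank over number fields is unbounded
-/

set_option autoImplicit false
set_option linter.all false

namespace Pool.Agent.K9h5.N

open Pool.Agent.H901R3.MS WeierstrassCurve Height Pool.Agent.K9h5 NumberField Filter Polynomial

/-- base change of points -/
theorem bcInt {K L : Type} [Field K] [Field L] [DecidableEq K] [DecidableEq L] (ι : K →+* L)
    (a b : ℤ) (hD : Disc (a : L) (b : L)) : ∃ φ : Pt (a : K) (b : K) →+ Pt (a : L) (b : L),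
      Function.Injective φ ∧ ∀ (x y : K) (h : (CV (a : K) (b : K)).toAffine.Nonsingular x y),
        ∃ g : (CV (a : L) (b : L)).toAffine.Nonsingular (ι x) (ι y),
          φ (Affine.Point.some x y h) = Affine.Point.some (ι x) (ι y) g := by
  have key : ∀ (a' b' : L), ι (a : K) = a' → ι (b : K) = b' → Disc a' b' →
      ∃ φ : Pt (a : K) (b : K) →+ Pt a' b',
      ∀ (x y : K) (h : (CV (a : K) (b : K)).toAffine.Nonsingular x y),
        ∃ g : (CV a' b').toAffine.Nonsingular (ι x) (ι y),
          φ (Affine.Point.some x y h) = Affine.Point.some (ι x) (ι y) g := by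
    rintro _ _ rfl rfl h
    exact baseChange ι _ _ h
  obtain ⟨φ, hφ⟩ := key (a : L) (b : L) (map_intCast ι a) (map_intCast ι b) hD
  refine ⟨φ, ?_, hφ⟩
  rw [injective_iff_map_eq_zero]
  intro P hP
  cases P with
  | zero => rfl
  | some x y h =>
    obtain ⟨g, hg⟩ := hφ x y h
    rw [hg] at hP
    cases hP

/-- the rank over the field `K` -/
noncomputable def rkE (K : Type) [Field K] (a b : ℤ) : ℕ :=
  letI := Classical.decEq K
  Module.finrank ℤ (Pt (a : K) (b : K))

theorem rkE_eq (K : Type) [Field K] [i : DecidableEq K] (a b : ℤ) :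
    Module.finrank ℤ (Pt (a : K) (b : K)) = rkE K a b := by
  obtain rfl : i = Classical.decEq K := Subsingleton.elim _ _
  rfl

theorem disc_int {K : Type} [Field K] [CharZero K] (a b : ℤ) (hD : Disc (a : ℚ) (b : ℚ)) :
    Disc (a : K) (b : K) := by
  intro h0
  apply hD
  have h1 : ((2 * (4 * a ^ 3 + 27 * b ^ 2) : ℤ) : K) = 0 := by
    push_cast
    exact h0
  have h2 : (2 * (4 * a ^ 3 + 27 * b ^ 2) : ℤ) = 0 := by exact_mod_cast h1
  have h3 : ((2 * (4 * a ^ 3 + 27 * b ^ 2) : ℤ) : ℚ) = 0 := by rw [h2, Int.cast_zero]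
  push_cast at h3
  exact h3

theorem rkE_mono {K L : Type} [Field K] [Field L] [NumberField L] (ι : K →+* L) (a b : ℤ)
    (hD : Disc (a : ℚ) (b : ℚ)) : rkE K a b ≤ rkE L a b := by
  classical
  rw [← rkE_eq K, ← rkE_eq L]
  obtain ⟨φ, hφ, _⟩ := bcInt ι a b (disc_int a b hD)
  haveI : Module.Finite ℤ (Pt (a : L) (b : L)) :=
    Module.Finite.iff_addGroup_fg.mpr (t_M1K L _ _ (disc_int a b hD))
  exact LinearMap.finrank_le_finrank_of_injective (f := φ.toIntLinearMap) hφ

theorem grow (K : Type) [Field K] [NumberField K] (a b : ℤ) (hD : Disc (a : ℚ) (b : ℚ)) :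
    ∃ (L : Type) (_ : Field L) (_ : NumberField L), Nonempty (K →+* L) ∧
      rkE K a b + 1 ≤ rkE L a b := by
  classical
  have hDK : Disc (a : K) (b : K) := disc_int a b hD
  obtain ⟨C₀, hC₀⟩ := nontors (a : K) (b : K) hDK
  obtain ⟨k, hk, hsq⟩ := nonsq (a : K) (b : K) hDK C₀
  set c : K := (k : K) ^ 3 + a * k + b with hc
  set g : K[X] := X ^ 2 - C c with hg
  set L := g.SplittingField with hL
  haveI : FiniteDimensional K L := IsSplittingField.finiteDimensional L g
  haveI : NumberField L := NumberField.of_module_finite K L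
  haveI : Normal K L := Normal.of_isSplittingField g
  haveI : IsGalois K L := ⟨⟩
  set ι := algebraMap K L with hι
  have hDL : Disc (a : L) (b : L) := disc_int a b hD
  -- the square root
  obtain ⟨y, hy⟩ : ∃ y : L, y ^ 2 = ι c := by
    have h1 : (g.map ι).Splits := SplittingField.splits g
    have h2 : (g.map ι).degree ≠ 0 := by
      rw [degree_map]
      have e0 : g.degree = 2 := degree_X_pow_sub_C (by norm_num) c
      rw [e0]
      norm_num
    obtain ⟨y, hy⟩ := h1.exists_eval_eq_zero h2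
    refine ⟨y, ?_⟩
    have hy' : eval y ((X ^ 2 - C c : K[X]).map ι) = 0 := hy
    rw [Polynomial.map_sub, Polynomial.map_pow, map_X, map_C, eval_sub, eval_pow, eval_X,
      eval_C, sub_eq_zero] at hy'
    exact hy'
  have hyK : y ∉ Set.range ι := by
    rintro ⟨z, rfl⟩
    apply hsq
    refine ⟨z, ι.injective ?_⟩
    rw [map_pow, hy]
  obtain ⟨σ, hσ⟩ : ∃ σ : L ≃ₐ[K] L, σ y ≠ y := by
    by_contra h
    push Not at h
    exact hyK ((IsGalois.mem_range_algebraMap_iff_fixed y).2 h)
  have hσy : σ y = -y := by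
    have h1 : (σ y) ^ 2 = y ^ 2 := by
      rw [← map_pow, hy]
      exact σ.commutes c
    rcases sq_eq_sq_iff_eq_or_eq_neg.1 h1 with h | h
    · exact absurd h hσ
    · exact h
  -- the point
  have hyE : Eqn (a : L) (b : L) (ι k) y := by
    unfold Eqn
    rw [hy, hc]
    simp
  have hns : (CV (a : L) (b : L)).toAffine.Nonsingular (ι k) y := (nonsingular_iff hDL).2 hyE
  set P : Pt (a : L) (b : L) := Affine.Point.some _ _ hns with hP
  have hnt : ∀ n : ℕ, n • P = 0 → n = 0 := by
    have key : ∀ (a' b' : L), ι (a : K) = a' → ι (b : K) = b' →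
        ∀ h : (CV a' b').toAffine.Nonsingular (ι k) y, ∀ n : ℕ,
          n • (Affine.Point.some _ _ h : Pt a' b') = 0 → n = 0 := by
      rintro _ _ rfl rfl h n
      exact hC₀ L ι k y h hk n
    exact key _ _ (map_intCast ι a) (map_intCast ι b) hns
  obtain ⟨φ, hφi, hφ⟩ := bcInt ι a b hDL
  obtain ⟨ψ, _, hψ⟩ := bcInt ((σ : L ≃+* L) : L →+* L) a b hDL
  have hψφ : ∀ Q, ψ (φ Q) = φ Q := by
    intro Q
    cases Q with
    | zero =>
      have : (Affine.Point.zero : Pt (a : K) (b : K)) = 0 := rfl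
      rw [this, map_zero, map_zero]
    | some u v h =>
      obtain ⟨g1, hg1⟩ := hφ u v h
      rw [hg1]
      obtain ⟨g2, hg2⟩ := hψ _ _ g1
      rw [hg2, Affine.Point.some.injEq]
      exact ⟨σ.commutes u, σ.commutes v⟩
  have hψP : ψ P = -P := by
    obtain ⟨g2, hg2⟩ := hψ _ _ hns
    have hns' : (CV (a : L) (b : L)).toAffine.Nonsingular (ι k) (-y) :=
      (nonsingular_iff hDL).2 (by unfold Eqn at hyE ⊢; rw [neg_sq]; exact hyE)
    rw [hP, hg2, neg_some' hns hns', Affine.Point.some.injEq]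
    exact ⟨σ.commutes k, hσy⟩
  have hind : ∀ (n : ℤ) Q, n • P = φ Q → n = 0 := by
    intro n Q h
    have h1 := congrArg ψ h
    rw [map_zsmul, hψP, hψφ, ← h, smul_neg, neg_eq_iff_add_eq_zero, ← add_smul] at h1
    have h2 : (n + n).natAbs • P = 0 := by
      rcases Int.natAbs_eq (n + n) with h3 | h3
      · rw [h3, natCast_zsmul] at h1
        exact h1
      · rw [h3, neg_smul, natCast_zsmul, neg_eq_zero] at h1
        exact h1
    have h3 := hnt _ h2
    omega
  -- ranks
  refine ⟨L, inferInstance, inferInstance, ⟨ι⟩, ?_⟩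
  rw [← rkE_eq K, ← rkE_eq L]
  haveI : Module.Finite ℤ (Pt (a : L) (b : L)) :=
    Module.Finite.iff_addGroup_fg.mpr (t_M1K L _ _ (disc_int a b hD))
  set N : Submodule ℤ (Pt (a : L) (b : L)) := LinearMap.range φ.toIntLinearMap with hN
  have h1 := Submodule.finrank_quotient_add_finrank N
  have h2 : Module.finrank ℤ N = Module.finrank ℤ (Pt (a : K) (b : K)) :=
    (LinearEquiv.ofInjective φ.toIntLinearMap hφi).finrank_eq.symm
  have h3 : 1 ≤ Module.finrank ℤ (Pt (a : L) (b : L) ⧸ N) := by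
    have h4 : Function.Injective (LinearMap.toSpanSingleton ℤ (Pt (a : L) (b : L) ⧸ N)
        (N.mkQ P)) := by
      rw [← LinearMap.ker_eq_bot, LinearMap.ker_eq_bot']
      intro n hn
      rw [LinearMap.toSpanSingleton_apply, ← map_smul, Submodule.mkQ_apply,
        Submodule.Quotient.mk_eq_zero] at hn
      obtain ⟨Q, hQ⟩ := hn
      exact hind n Q hQ.symm
    have h5 := LinearMap.finrank_le_finrank_of_injective h4
    rwa [Module.finrank_self] at h5
  omega

/-- number fields over which all the ranks are large -/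
theorem exists_rank {r : ℕ} (a b : Fin r → ℤ) (hD : ∀ i, Disc (a i : ℚ) (b i : ℚ)) (T : ℕ) :
    ∃ (L : Type) (_ : Field L) (_ : NumberField L), ∀ i, T ≤ rkE L (a i) (b i) := by
  classical
  have h1 : ∀ (i : Fin r) (T : ℕ) (K : Type) (_ : Field K) (_ : NumberField K),
      ∃ (L : Type) (_ : Field L) (_ : NumberField L), Nonempty (K →+* L) ∧
        T ≤ rkE L (a i) (b i) := by
    intro i T
    induction T with
    | zero => intro K _ _; exact ⟨K, inferInstance, inferInstance, ⟨RingHom.id K⟩, Nat.zero_le _⟩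
    | succ T ih =>
      intro K iK jK
      obtain ⟨L, iL, jL, ⟨ι⟩, hL⟩ := ih K iK jK
      obtain ⟨M, iM, jM, ⟨κ⟩, hM⟩ := grow L (a i) (b i) (hD i)
      exact ⟨M, iM, jM, ⟨κ.comp ι⟩, by omega⟩
  have h2 : ∀ s : Finset (Fin r), ∃ (L : Type) (_ : Field L) (_ : NumberField L),
      ∀ i ∈ s, T ≤ rkE L (a i) (b i) := by
    intro s
    induction s using Finset.induction_on with
    | empty => exact ⟨ℚ, inferInstance, inferInstance, fun i hi => absurd hi (by simp)⟩
    | insert i s _ ih =>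
      obtain ⟨L, iL, jL, hL⟩ := ih
      obtain ⟨M, iM, jM, ⟨κ⟩, hM⟩ := h1 i T L iL jL
      refine ⟨M, iM, jM, ?_⟩
      intro i' hi'
      rcases Finset.mem_insert.1 hi' with rfl | h
      · exact hM
      · exact (hL i' h).trans (rkE_mono κ _ _ (hD i'))
  obtain ⟨L, iL, jL, hL⟩ := h2 Finset.univ
  exact ⟨L, iL, jL, fun i => hL i (Finset.mem_univ i)⟩

end Pool.Agent.K9h5.N
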