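import Mathlib
import Pool.Agent.K9h5.U.Loc
import Pool.Agent.K9h5.N.Gen3
import Pool.Agent.K9h5.N.LiftK

/-!
# The Galois group is the symmetric group outside a thin set of small size, over a number field
-/

set_option autoImplicit false
set_option linter.all false

namespace Pool.Agent.K9h5.N

open Polynomial Pool.Agent.H901R3.MS WeierstrassCurve Finset Pool.Agent.K9h5 Pool.Agent.K9h5.T
  Pool.Agent.K9h5.U

theorem main_SK {r n : ℕ} (hn : 2 ≤ n) (a b : Fin r → ℤ) (hD : ∀ i, Disc (a i : ℚ) (b i : ℚ))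
    (F : Fin n → MvPolynomial (Fin r × Fin 3) ℤ) (j : Fin r) (d : Fin r → ℕ)
    (hF : ∀ k i, (F k).IsWeightedHomogeneous (wtj i) (((k : ℕ) + 1) * d i))
    (V : Fin r → Fin 3 → ℂ) (W : Fin 3 → PowerSeries ℂ) (m : ℕ)
    (haff : ∀ i, i ≠ j → V i 2 = 1 ∧ V i 1 ^ 2 = V i 0 ^ 3 + a i * V i 0 + b i)
    (hW0 : W ≠ 0) (hWE : W 1 ^ 2 * W 2 = W 0 ^ 3 + (a j : PowerSeries ℂ) * W 0 * W 2 ^ 2 +
      (b j : PowerSeries ℂ) * W 2 ^ 3)
    (hord : (evF (DFm F) (fun i k => if i = j then W k else PowerSeries.C (V i k))).order = m)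
    (hm : Odd m)
    (hFull : Full1 (a j : ℂ) (b j : ℂ) (fun k => evF (F k) (gen j (a j : ℂ) (b j : ℂ) V)))
    (K : Type) [Field K] [NumberField K] [DecidableEq K]
    (hrk : ∀ i, 1 ≤ Module.finrank ℤ (Pt (a i : K) (b i : K)))
    (hrj : 3 ≤ Module.finrank ℤ (Pt (a j : K) (b j : K))) :
    ∃ C : ℝ, 0 < C ∧ ∀ B : ℝ, 1 ≤ B →
      (ABg (fun i => hK (a := (a i : K)) (b := (b i : K))) B).Finite ∧
      ({P : ∀ i, Pt (a i : K) (b i : K) | (∀ i, hK (P i) ≤ B) ∧
        Nat.card (pol (fun k => evF (F k) (fun i => rep (P i)))).Gal ≠ Nat.factorial n}.ncard : ℝ) ≤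
      C * (B ^ (-(1 / 300) : ℝ) *
        ((ABg (fun i => hK (a := (a i : K)) (b := (b i : K))) B).ncard : ℝ)) := by
  classical
  obtain ⟨bp, Cl, p₀, hCl, hloc⟩ := local_S hn a b hD F j (fun k => hF k j) V W m haff hW0 hWE hord
    hm hFull
  have hDK : ∀ i, Disc (a i : K) (b i : K) := by
    intro i h0
    apply hD i
    have h1 : ((2 * (4 * a i ^ 3 + 27 * b i ^ 2) : ℤ) : K) = 0 := by
      push_cast
      exact h0
    have h2 : (2 * (4 * a i ^ 3 + 27 * b i ^ 2) : ℤ) = 0 := by exact_mod_cast h1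
    have h3 : ((2 * (4 * a i ^ 3 + 27 * b i ^ 2) : ℤ) : ℚ) = 0 := by rw [h2, Int.cast_zero]
    push_cast at h3
    exact h3
  have hmain : ∀ σ : Equiv.Perm (Fin n), ∃ C : ℝ, 0 ≤ C ∧ ∀ B : ℝ, 1 ≤ B →
      ({P : ∀ i, Pt (a i : K) (b i : K) | (∀ i, hK (P i) ≤ B) ∧
        ¬ TypeK (pol (fun k => evF (F k) (fun i => rep (P i)))) σ}.ncard : ℝ) ≤
      C * (B ^ (-(1 / 300) : ℝ) *
        ((ABg (fun i => hK (a := (a i : K)) (b := (b i : K))) B).ncard : ℝ)) := by
    intro σ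
    refine points_genG a b (fun i => Pt (a i : K) (b i : K)) (fun i => hK) (AdmK K)
      (fun p _ i => rdK K p (a i) (b i)) (fun i => killK K (a i) (b i)) (supK K)
      (fun i => t_M1K K _ _ (hDK i)) (fun i => hK_nonneg) (fun i => northK)
      (fun i => canonK (hDK i)) (fun i => hK_zero) j
      (fun P => ¬ TypeK (pol (fun k => evF (F k) (fun i => rep (P i)))) σ)
      (fun p _ P u => gS σ (fun k => Fm a b (F k) j p P) u)
      (fun p _ P u => gS_abs_le (by omega) σ _ u)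
      (fun p _ P P' h => by
        have h1 : ∀ k, Fm a b (F k) j p P = Fm a b (F k) j p P' := by
          intro k
          unfold Fm
          apply specF_congr
          intro i hi
          rw [h i hi]
        funext u
        simp only [h1]) bp Cl p₀ hCl ?_ (1 / (n : ℝ) ^ n)
      (by
        have : (0 : ℝ) < n := by
          have : 0 < n := by omega
          exact_mod_cast this
        positivity)
      (fun p _ hp hA P hP => by
        apply gS_ge
        exact lift_SK K a b F j d hF p hA (hloc p hp).1 P σ hP) hrk hrj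
    intro p _ hp
    obtain ⟨h1, h2, h3, h4⟩ := hloc p hp
    refine ⟨h1, h2, h3, ?_⟩
    intro P hP
    obtain ⟨Bd, hB1, hB2⟩ := h4 P hP
    exact ⟨Bd, hB1, hB2 σ⟩
  choose C hC hCm using hmain
  refine ⟨∑ σ, C σ + 1, by
    have : 0 ≤ ∑ σ, C σ := sum_nonneg fun σ _ => hC σ
    linarith, ?_⟩
  intro B hB
  have hfin := ABg_finite (fun i => hK (a := (a i : K)) (b := (b i : K))) (fun i => northK) B
  refine ⟨hfin, ?_⟩
  set S : Equiv.Perm (Fin n) → Set (∀ i, Pt (a i : K) (b i : K)) := fun σ =>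
    {P | (∀ i, hK (P i) ≤ B) ∧ ¬ TypeK (pol (fun k => evF (F k) (fun i => rep (P i)))) σ} with hS
  have hSf : ∀ σ, (S σ).Finite := fun σ => hfin.subset fun P hP => hP.1
  have hsub : {P : ∀ i, Pt (a i : K) (b i : K) | (∀ i, hK (P i) ≤ B) ∧
      Nat.card (pol (fun k => evF (F k) (fun i => rep (P i)))).Gal ≠ Nat.factorial n} ⊆
      ⋃ σ ∈ (Finset.univ : Finset (Equiv.Perm (Fin n))), S σ := by
    intro P hP
    by_contra hcon
    apply hP.2
    apply gal_of_typesK _ (pol_monic _) (pol_natDegree _)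
    intro σ
    by_contra hσ
    apply hcon
    rw [Set.mem_iUnion₂]
    exact ⟨σ, Finset.mem_univ σ, hP.1, hσ⟩
  have h0 : (0 : ℝ) ≤ B ^ (-(1 / 300) : ℝ) *
      ((ABg (fun i => hK (a := (a i : K)) (b := (b i : K))) B).ncard : ℝ) := by positivity
  have h1 : ({P : ∀ i, Pt (a i : K) (b i : K) | (∀ i, hK (P i) ≤ B) ∧
      Nat.card (pol (fun k => evF (F k) (fun i => rep (P i)))).Gal ≠ Nat.factorial n}.ncard) ≤
      ∑ σ, (S σ).ncard := by
    refine (Set.ncard_le_ncard hsub ?_).trans ?_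
    · exact Set.Finite.biUnion (Finset.finite_toSet _) fun σ _ => hSf σ
    · exact Finset.set_ncard_biUnion_le _ _
  have h2 : ((∑ σ, (S σ).ncard : ℕ) : ℝ) ≤ (∑ σ, C σ) *
      (B ^ (-(1 / 300) : ℝ) *
        ((ABg (fun i => hK (a := (a i : K)) (b := (b i : K))) B).ncard : ℝ)) := by
    push_cast
    rw [sum_mul]
    exact sum_le_sum fun σ _ => hCm σ B hB
  have h3 : (({P : ∀ i, Pt (a i : K) (b i : K) | (∀ i, hK (P i) ≤ B) ∧
      Nat.card (pol (fun k => evF (F k) (fun i => rep (P i)))).Gal ≠ Nat.factorial n}.ncard : ℕ) : ℝ)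
      ≤ ((∑ σ, (S σ).ncard : ℕ) : ℝ) := by exact_mod_cast h1
  refine h3.trans (h2.trans ?_)
  rw [add_mul, one_mul]
  linarith

end Pool.Agent.K9h5.N
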